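import Pool.Agent.H595.Dens.SP

set_option autoImplicit false

/-!
# The density of the scales at which `π + e` or `π e` is near a rational number

Let `ξ` be a real number with the measure `|a + b ξ + c ξ ^ 2| ≫ H ^ (-2 - ε)` for integers of absolute value at most
`H` (this is the exponent of almost all numbers, and of `ξ = e`), and let `t` be any real number, for instance
`t = π`. For an exponent `w > 1` we consider the scales `X` at which one of the two numbers `t + ξ` and `t ξ` is near a
rational number, that is, `|q y - p| ≤ X ^ (-w)` with integers `p` and `1 ≤ q ≤ X`, where `y` is one of the two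
numbers. If one of the numbers is rational then all large scales have this property. We show that if both numbers are
irrational then the lower logarithmic density of the set of these scales is at most
`max (3 / w) ((3 + 2 (5 - w) / (1 + √17)) / w)`, which is `1` at `w = (3 + √17) / 2 = 3.56…`, less than `1` for larger
`w` and `3 / w` for `w ≥ 5`. So there is a zero-one law for each `w > (3 + √17) / 2`: `π + e` and `π e` are both
irrational if and only if the lower logarithmic density is at most this bound, and one of them is rational if and only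
if the density is `1`. The order `1 / w` of the bound is right: for a dense set of real numbers `t` both numbers are
irrational and the density is at least `2 / w` for all `w ≥ 2`.

Method. Let `p_i / q_i` be the approximations, to one of the two numbers, which are minimal and of exponent `w` at
their own scale `q_i`, `L_i = |q_i y - p_i|`. The numbers `ξ` and `t` are the roots of `X ^ 2 - (t + ξ) X + t ξ`, and
two approximations of different numbers give a quadratic polynomial with integer coefficients which is small at `ξ`;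
hence `L_i ≥ q_(i+1)^(-3-ε) q_i^(-2-ε)`; and two of three consecutive approximations belong to the same number, which
gives `L_i ≥ q_(i+2)^(-1) / 2`. The bound follows from these two inequalities by a potential argument and an argument
on the growth of the partial sums of `log q_i`.
-/

namespace Pool.Agent.Results.MP_a49cf6_nt.DensitySumProduct

open Filter MeasureTheory Real

/-- linear and quadratic polynomials with integer coefficients are not smaller at `ξ` than at almost all numbers -/
def QuadraticExponentTwo (ξ : ℝ) : Prop := ∀ ε : ℝ, 0 < ε → ∃ c : ℝ, 0 < c ∧ ∀ (a b d : ℤ) (H : ℝ),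
  ¬ (a = 0 ∧ b = 0 ∧ d = 0) → 1 ≤ H → |(a : ℝ)| ≤ H → |(b : ℝ)| ≤ H → |(d : ℝ)| ≤ H →
  c * H ^ (-(2 + ε)) ≤ |a + b * ξ + d * ξ ^ 2|

/-- at the scale `X` the number `y` is near a rational number, with exponent `w` -/
def NearRational (y w X : ℝ) : Prop := ∃ p q : ℤ, 1 ≤ q ∧ (q : ℝ) ≤ X ∧ |q * y - p| ≤ X ^ (-w)

/-- the logarithms `x` of the scales at which `y` or `z` is near a rational number -/
def logScales (y z w : ℝ) : Set ℝ := {x | NearRational y w (exp x) ∨ NearRational z w (exp x)}

/-- the lower density of a set of positive real numbers; for the set of the logarithms of the elements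
of a set of scales it is the lower logarithmic density of the set of scales -/
noncomputable def lowerDensity (S : Set ℝ) : ℝ :=
  liminf (fun T : ℝ => (volume (S ∩ Set.Icc 0 T)).toReal / T) atTop

/-- the bound for the density -/
noncomputable def law (w : ℝ) : ℝ := max (3 / w) ((3 + 2 * (5 - w) / (1 + √17)) / w)

theorem quadM {ξ : ℝ} (h : QuadraticExponentTwo ξ) : Pool.Agent.H595.Dens.QuadM ξ := by
  intro ε hε
  obtain ⟨c, hc, h1⟩ := h ε hε
  refine ⟨c, hc, fun a b d H h0 hH ha hb hd => ?_⟩
  have h2 := h1 a b d H h0 hH ha hb hd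
  rw [rpow_neg (by linarith), ← div_eq_mul_inv, div_le_iff₀ (by positivity)] at h2
  linarith

theorem of_quadM {ξ : ℝ} (h : Pool.Agent.H595.Dens.QuadM ξ) : QuadraticExponentTwo ξ := by
  intro ε hε
  obtain ⟨c, hc, h1⟩ := h ε hε
  refine ⟨c, hc, fun a b d H h0 hH ha hb hd => ?_⟩
  have h2 := h1 a b d H h0 hH ha hb hd
  rw [rpow_neg (by linarith), ← div_eq_mul_inv, div_le_iff₀ (by positivity)]
  linarith

theorem expTwo_e : QuadraticExponentTwo (exp 1) := of_quadM Pool.Agent.H595.Dens.quadM_e

theorem logScales_eq (t ξ w : ℝ) : logScales (t + ξ) (t * ξ) w =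
    Pool.Agent.H595.Dens.ratScales (Pool.Agent.H595.Dens.sp ξ t) w := by
  ext x
  constructor
  · rintro (⟨p, q, h1, h2, h3⟩ | ⟨p, q, h1, h2, h3⟩)
    · exact ⟨0, p, q, h1, h2, h3⟩
    · exact ⟨1, p, q, h1, h2, h3⟩
  · rintro ⟨j, p, q, h1, h2, h3⟩
    fin_cases j
    · exact Or.inl ⟨p, q, h1, h2, h3⟩
    · exact Or.inr ⟨p, q, h1, h2, h3⟩

/-- the root -/
noncomputable def u : ℝ := (3 + √17) / 2

theorem sqrt_gt : 4 < √17 := by
  rw [show (4 : ℝ) = √(4 ^ 2) by rw [Real.sqrt_sq (by norm_num)]]
  exact Real.sqrt_lt_sqrt (by norm_num) (by norm_num)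

theorem u_gt : 3 < u := by
  have := sqrt_gt
  rw [u]
  linarith

theorem u_sq : u ^ 2 = 3 * u + 2 := by
  have h := Real.sq_sqrt (show (0 : ℝ) ≤ 17 by norm_num)
  rw [u]
  linear_combination h / 4

theorem root : u ^ Fintype.card (Fin 2) = (2 + 1) * u + 2 := by
  rw [Fintype.card_fin, u_sq]
  ring

theorem law_eq {w : ℝ} (hw : 0 < w) : law w = Pool.Agent.H595.Dens.famLawE 2 u w := by
  have h := sqrt_gt
  have hu := u_gt
  have e1 : 1 + √17 = 2 * (u - 1) := by rw [u]; ring
  have hu1 : u - 1 ≠ 0 := by linarith
  rw [law, Pool.Agent.H595.Dens.famLawE, e1]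
  congr 1
  · norm_num
  · field_simp
    ring

theorem law_high {w : ℝ} (hw : 5 ≤ w) : law w = 3 / w := by
  have hw0 : 0 < w := by linarith
  have h := sqrt_gt
  rw [law, max_eq_left]
  gcongr
  have h2 : 2 * (5 - w) / (1 + √17) ≤ 0 := div_nonpos_of_nonpos_of_nonneg (by linarith) (by linarith)
  linarith

theorem law_one : law ((3 + √17) / 2) = 1 := by
  have hu := u_gt
  have hsq := u_sq
  have e1 : 1 + √17 = 2 * (u - 1) := by rw [u]; ring
  have hu1 : u - 1 ≠ 0 := by linarith
  have e2 : (3 + √17) / 2 = u := rfl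
  have e3 : (3 + 2 * (5 - u) / (2 * (u - 1))) / u = 1 := by
    rw [div_eq_one_iff_eq (by linarith)]
    field_simp
    linear_combination -hsq
  rw [e2, law, e1, e3, max_eq_right]
  rw [div_le_one (by linarith)]
  linarith

theorem law_lt_one {w : ℝ} (hw : (3 + √17) / 2 < w) : law w < 1 := by
  have hu := u_gt
  have hsq := u_sq
  have e2 : (3 + √17) / 2 = u := rfl
  rw [e2] at hw
  rw [law_eq (by linarith)]
  apply Pool.Agent.H595.Dens.famLawE_lt_one (by norm_num) (by linarith)
  have e1 : 2 + 1 + 2 / u = u := by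
    field_simp
    linear_combination -hsq
  rw [e1]
  exact hw

theorem upper {ξ : ℝ} (hξ : QuadraticExponentTwo ξ) {t w : ℝ} (hw : 1 < w)
    (h1 : Irrational (t + ξ)) (h2 : Irrational (t * ξ)) :
    lowerDensity (logScales (t + ξ) (t * ξ) w) ≤ law w := by
  have hu := u_gt
  rw [logScales_eq, law_eq (by linarith)]
  refine Pool.Agent.H595.Dens.fam_lawE (by norm_num) (fun j => ?_) (Pool.Agent.H595.Dens.sep_sp (quadM hξ) t) hw
    (by linarith) root
  fin_cases j
  · exact h1
  · exact h2

theorem density_one {ξ t : ℝ} (h : ¬ (Irrational (t + ξ) ∧ Irrational (t * ξ))) (w : ℝ) :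
    lowerDensity (logScales (t + ξ) (t * ξ) w) = 1 := by
  rw [logScales_eq]
  rw [not_and_or] at h
  rcases h with h | h
  · exact Pool.Agent.H595.Dens.density_one_rat (θ := Pool.Agent.H595.Dens.sp ξ t) (j := 0) h w
  · exact Pool.Agent.H595.Dens.density_one_rat (θ := Pool.Agent.H595.Dens.sp ξ t) (j := 1) h w

theorem result :
    -- (1) the upper bound, if both numbers are irrational, and the density if one of them is rational
    (∀ ξ : ℝ, QuadraticExponentTwo ξ → ∀ t w : ℝ, 1 < w →
      (Irrational (t + ξ) ∧ Irrational (t * ξ) → lowerDensity (logScales (t + ξ) (t * ξ) w) ≤ law w) ∧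
      (¬ (Irrational (t + ξ) ∧ Irrational (t * ξ)) → lowerDensity (logScales (t + ξ) (t * ξ) w) = 1)) ∧
    -- (2) the zero-one law for `π + e` and `π e`
    (QuadraticExponentTwo (exp 1) ∧ ∀ w : ℝ, (3 + √17) / 2 < w → law w < 1 ∧
      ((Irrational (π + exp 1) ∧ Irrational (π * exp 1)) ↔
        lowerDensity (logScales (π + exp 1) (π * exp 1) w) ≤ law w) ∧
      (¬ (Irrational (π + exp 1) ∧ Irrational (π * exp 1)) ↔
        lowerDensity (logScales (π + exp 1) (π * exp 1) w) = 1)) ∧
    -- (3) the order of the bound is right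
    (∀ ξ : ℝ, QuadraticExponentTwo ξ → ∀ a b : ℝ, a < b → ∃ t : ℝ, a < t ∧ t < b ∧
      Irrational (t + ξ) ∧ Irrational (t * ξ) ∧
      ∀ w : ℝ, 2 ≤ w → 2 / w ≤ lowerDensity (logScales (t + ξ) (t * ξ) w)) ∧
    -- (4) the values of the bound
    ((∀ w : ℝ, 5 ≤ w → law w = 3 / w) ∧ law ((3 + √17) / 2) = 1) := by
  refine ⟨fun ξ hξ t w hw => ⟨fun h => upper hξ hw h.1 h.2, fun h => density_one h w⟩,
    ⟨expTwo_e, fun w hw => ?_⟩, fun ξ hξ a b hab => ?_, fun w hw => law_high hw, law_one⟩
  · have h := sqrt_gt
    have hl := law_lt_one hw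
    refine ⟨hl, ⟨fun h3 => upper expTwo_e (by linarith) h3.1 h3.2, fun h3 => ?_⟩,
      ⟨fun h3 => density_one h3 w, fun h3 h4 => ?_⟩⟩
    · by_contra h4
      rw [density_one h4 w] at h3
      linarith
    · have h5 := upper expTwo_e (show 1 < w by linarith) h4.1 h4.2
      rw [h3] at h5
      linarith
  · obtain ⟨t, h1, h2, h3, h4⟩ := Pool.Agent.H595.Dens.exists_sp (quadM hξ) hab
    refine ⟨t, h1, h2, h3 0, h3 1, fun w hw => ?_⟩
    rw [logScales_eq]
    exact h4 w hw

end Pool.Agent.Results.MP_a49cf6_nt.DensitySumProduct
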