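import Mathlib
import Pool.Agent.H594.ML.Ell4
import Pool.Agent.H594.ML.Exc
import Pool.Graph.R_seed8.H340R2.LW

/-!
# The five numbers for the multiples of `π` and `e` by values of functions on elliptic curves

Let `E` be an elliptic curve over a number field `K` and let `f`, `g` be non-constant rational
functions on `E`. For all but finitely many points `Q` in `E(K)` at which `f` and `g` are real and
positive, the numbers `π' = f(Q) π` and `e' = g(Q) e` are such that at least four of the five numbers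
`π' + e'`, `π' e'`, `π' ^ e'`, `e' ^ e'`, `π' ^ π'` are transcendental. (The question is about the
multiples `1`, `1`.) For instance `π' = x π`, `e' = x e` for the infinitely many rational numbers `x`
for which `x ^ 3 - 2` is the square of a rational number.

More generally we consider, for any complex numbers `t_1, ..., t_r` and `w_1, ..., w_s`, the
algebraic numbers `a` for which SOME number `a ^ x e ^ v e ^ (y_1 w_1) ⋯ e ^ (y_s w_s)` is algebraic,
where `x` (transcendental), `v`, `y_j` are quotients of polynomials of degree at most `D` in `t` with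
algebraic coefficients and a common denominator; for instance `a ^ x e ^ v π ^ y` with exponents in
`ℚ̄(π, e)`. By a theorem of six exponentials type for all these exponents at once (starting files
`Pool.Agent.K3h86.PT`) these numbers `a` generate a group of finite rank. We show that a non-constant
rational function `f` on an elliptic curve has a value in this group (and in its division hull) at
only finitely many points of `E(K)` (`Pool.Agent.H594.ML.ell_C`): the values are units outside a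
finite set `S` of places. So the points are `S`-integral with respect to a zero or a pole `T` of `f`,
and after a translation by `T` (`Pool.Agent.H594.ML.curve_far`) with respect to the origin. By the
theorem of Siegel (starting files `Pool.Agent.Y199.SG.siegel`, for full rational `2`-torsion) there
are only finitely many such points.

For curves of genus at least two there are only finitely many points in `E(K)` by the theorem of
Faltings. For curves of genus zero, functions with one zero and one pole have to be excluded.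
-/

set_option autoImplicit false

namespace Pool.Agent.Results.MP_a49cf6_nt.MultiplesByEllipticPoints

open Pool.Agent.H594.ML
open Pool.Agent.HP778 (mem_of_exp)

/-- The linear combinations, with algebraic coefficients, of `1` and of logarithms of algebraic
numbers. -/
noncomputable def LogForms : Submodule (algebraicClosure ℚ ℂ) ℂ :=
  Submodule.span (algebraicClosure ℚ ℂ) ({1} ∪ {z : ℂ | IsAlgebraic ℚ (Complex.exp z)})

/-- The numbers `e ^ z` with `z` in `LogForms`, i.e. the numbers `e ^ γ α_1 ^ β_1 ⋯ α_k ^ β_k` with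
algebraic `γ`, `α_i ≠ 0`, `β_i`. All nonzero algebraic numbers are of this form. -/
def Prods : Set ℂ := {x | ∃ z ∈ LogForms, Complex.exp z = x}

/-- the triples `(P(t) / Q(t), T(t) / Q(t), (S_j(t) / Q(t)))` with polynomials `P`, `Q`, `T`, `S_j`
with algebraic coefficients and of degree at most `D` in each of the `r` variables, such that
`P(t) / Q(t)` is transcendental -/
def ratExps {r : ℕ} (t : Fin r → ℂ) (s D : ℕ) : Set (ℂ × ℂ × (Fin s → ℂ)) :=
  {E₀ | Transcendental ℚ E₀.1 ∧ ∃ (P Q T : MvPolynomial (Fin r) (algebraicClosure ℚ ℂ))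
    (S : Fin s → MvPolynomial (Fin r) (algebraicClosure ℚ ℂ)),
    (∀ i, P.degreeOf i ≤ D) ∧ (∀ i, Q.degreeOf i ≤ D) ∧ (∀ i, T.degreeOf i ≤ D) ∧
    (∀ j i, (S j).degreeOf i ≤ D) ∧ MvPolynomial.aeval t Q ≠ 0 ∧
    E₀.1 = MvPolynomial.aeval t P / MvPolynomial.aeval t Q ∧
    E₀.2.1 = MvPolynomial.aeval t T / MvPolynomial.aeval t Q ∧
    ∀ j, E₀.2.2 j = MvPolynomial.aeval t (S j) / MvPolynomial.aeval t Q}

/-- The nonzero algebraic numbers `a = e ^ l` (`l` is any logarithm of `a`) such that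
`a ^ x e ^ v e ^ (y_1 w_1) ⋯ e ^ (y_s w_s)`, where `a ^ x = e ^ (x l)`, is in `Prods` for SOME
`(x, v, y)` in `ratExps t s D`. -/
def Exc {r s : ℕ} (t : Fin r → ℂ) (w : Fin s → ℂ) (D : ℕ) : Set ℂ :=
  {a | IsAlgebraic ℚ a ∧ ∃ l : ℂ, Complex.exp l = a ∧ ∃ E₀ ∈ ratExps t s D,
    Complex.exp (E₀.1 * l) * Complex.exp E₀.2.1 * ∏ j, Complex.exp (E₀.2.2 j * w j) ∈ Prods}

/-- the complex numbers a positive power of which is a product of elements of `Exc t w D` and of
inverses of such elements -/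
def ExcHull {r s : ℕ} (t : Fin r → ℂ) (w : Fin s → ℂ) (D : ℕ) : Set ℂ :=
  {a | ∃ u : ℂˣ, (u : ℂ) = a ∧ ∃ k : ℕ, 0 < k ∧
    u ^ k ∈ Subgroup.closure {v : ℂˣ | (v : ℂ) ∈ Exc t w D}}

/-- `(π, e)` -/
noncomputable def pie : Fin 2 → ℂ := ![((Real.pi : ℝ) : ℂ), ((Real.exp 1 : ℝ) : ℂ)]

/-- `log π` -/
noncomputable def logpi : Fin 1 → ℂ := ![((Real.log Real.pi : ℝ) : ℂ)]


/-- the set of the polynomials all of whose coefficients are algebraic numbers -/
def AlgPoly : Set (Polynomial ℂ) := {P | ∀ i, IsAlgebraic ℚ (P.coeff i)}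

/-- `y ^ 2 = F(x)` is an elliptic curve: `F` is a monic polynomial of degree three with algebraic
coefficients and without multiple zeros -/
def IsCubic (F : Polynomial ℂ) : Prop := F ∈ AlgPoly ∧ F.Monic ∧ F.natDegree = 3 ∧ F.Separable

/-- the affine points with coordinates in `K` of the curve `y ^ 2 = F(x)` -/
def points (K : IntermediateField ℚ ℂ) (F : Polynomial ℂ) : Set (ℂ × ℂ) :=
  {Q | Q.1 ∈ K ∧ Q.2 ∈ K ∧ Q.2 ^ 2 = F.eval Q.1}

/-- The rational functions `(A(x) + B(x) y) / C(x)` with algebraic coefficients on the curve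
`y ^ 2 = F(x)` which are not constant, given by the triples `(A, B, C)`. -/
def Functions : Set (Polynomial ℂ × Polynomial ℂ × Polynomial ℂ) :=
  {f | f.1 ∈ AlgPoly ∧ f.2.1 ∈ AlgPoly ∧ f.2.2 ∈ AlgPoly ∧ f.2.2 ≠ 0 ∧
    ¬ (f.2.1 = 0 ∧ ∃ c : ℂ, f.1 = Polynomial.C c * f.2.2)}

/-- the value `(A(x) + B(x) y) / C(x)` of the function `f = (A, B, C)` at `Q = (x, y)` -/
noncomputable def value (f : Polynomial ℂ × Polynomial ℂ × Polynomial ℂ) (Q : ℂ × ℂ) : ℂ :=
  (f.1.eval Q.1 + f.2.1.eval Q.1 * Q.2) / f.2.2.eval Q.1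

/-- At least four of the five numbers are transcendental: `P ^ E`, `E ^ E`, `P ^ P`, and one of
`P + E`, `P E`. -/
def FourOfFive (P E : ℝ) : Prop :=
  Transcendental ℚ (P ^ E) ∧ Transcendental ℚ (E ^ E) ∧ Transcendental ℚ (P ^ P) ∧
    (Transcendental ℚ (P + E) ∨ Transcendental ℚ (P * E))

theorem alg_prods {x : ℂ} (hx : IsAlgebraic ℚ x) (hx0 : x ≠ 0) : x ∈ Prods := by
  refine ⟨Complex.log x, ?_, Complex.exp_log hx0⟩
  refine Submodule.subset_span (Or.inr ?_)
  change IsAlgebraic ℚ (Complex.exp (Complex.log x))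
  rwa [Complex.exp_log hx0]

theorem exc_hull {r s : ℕ} (t : Fin r → ℂ) (w : Fin s → ℂ) (D : ℕ) :
    ∃ Γ : Subgroup (Pool.Agent.Helper259.AbsHt.Qbar)ˣ, Γ.FG ∧
      ∀ a ∈ Exc t w D, ∃ u ∈ Pool.Agent.Y215.SK.DivHull Γ, a = sg u := by
  obtain ⟨Γ, hΓ, h⟩ := hull_multi t w D
  refine ⟨Γ, hΓ, ?_⟩
  rintro a ⟨ha, l, rfl, E₀, ⟨hx, P, Q, T, S, hP, hQ, hT, hS, hQ0, h1, h2, h3⟩, z, hz, hze⟩
  refine h l ha ⟨E₀.1, E₀.2.1, E₀.2.2, ⟨P, Q, T, S, hP, hQ, hT, hS, hQ0, h1, h2, h3⟩, hx, ?_⟩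
  rw [← Complex.exp_sum, ← Complex.exp_add, ← Complex.exp_add] at hze
  exact mem_of_exp hz hze.symm

theorem values {r s : ℕ} (t : Fin r → ℂ) (w : Fin s → ℂ) (D : ℕ) (K : IntermediateField ℚ ℂ)
    [FiniteDimensional ℚ K] (F : Polynomial ℂ) (hF : IsCubic F)
    (f : Polynomial ℂ × Polynomial ℂ × Polynomial ℂ) (hf : f ∈ Functions) :
    {Q ∈ points K F | f.2.2.eval Q.1 ≠ 0 ∧ value f Q ∈ ExcHull t w D}.Finite := by
  obtain ⟨Γ, hΓ, hex⟩ := exc_hull t w D
  obtain ⟨hF1, hF2, hF3, hF4⟩ := hF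
  obtain ⟨hf1, hf2, hf3, hf4, hf5⟩ := hf
  refine (ell_C Γ hΓ K F f.1 f.2.1 f.2.2 hF1 hF2 hF3 hF4 hf1 hf2 hf3 hf4
    fun c hc => hf5 ⟨hc.2, c, hc.1⟩).subset ?_
  rintro Q ⟨⟨h1, h2, h3⟩, h4, h5⟩
  exact ⟨h1, h2, h3, h4, mulHull_hull hex h5⟩

theorem value_alg {K : IntermediateField ℚ ℂ} [FiniteDimensional ℚ K] {F : Polynomial ℂ}
    {f : Polynomial ℂ × Polynomial ℂ × Polynomial ℂ} (hf : f ∈ Functions) {Q : ℂ × ℂ}
    (hQ : Q ∈ points K F) : IsAlgebraic ℚ (value f Q) := by
  have halg : ∀ z ∈ K, IsAlgebraic ℚ z := by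
    intro z hz
    have h2 : IsAlgebraic ℚ (⟨z, hz⟩ : K) := Algebra.IsAlgebraic.isAlgebraic _
    exact h2.algebraMap
  have hev : ∀ P ∈ AlgPoly, ∀ z : ℂ, IsAlgebraic ℚ z → IsAlgebraic ℚ (P.eval z) := by
    intro P hP z hz
    rw [Polynomial.eval_eq_sum_range]
    exact Finset.sum_induction _ (IsAlgebraic ℚ) (fun a b ha hb => ha.add hb) isAlgebraic_zero
      fun i _ => (hP i).mul (hz.pow i)
  obtain ⟨h1, h2, h3, -, -⟩ := hf
  have hx := halg _ hQ.1
  have hy := halg _ hQ.2.1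
  unfold value
  rw [div_eq_mul_inv]
  exact ((hev _ h1 _ hx).add ((hev _ h2 _ hx).mul hy)).mul (hev _ h3 _ hx).inv

theorem mem_exc {a : ℝ} (ha : 0 < a) (halg : IsAlgebraic ℚ a) {x y v : ℝ}
    (hx : Transcendental ℚ x)
    (hP : ∃ P : MvPolynomial (Fin 2) (algebraicClosure ℚ ℂ), (∀ i, P.degreeOf i ≤ 1) ∧
      (x : ℂ) = MvPolynomial.aeval pie P)
    (hT : ∃ P : MvPolynomial (Fin 2) (algebraicClosure ℚ ℂ), (∀ i, P.degreeOf i ≤ 1) ∧
      (v : ℂ) = MvPolynomial.aeval pie P)
    (hS : ∃ P : MvPolynomial (Fin 2) (algebraicClosure ℚ ℂ), (∀ i, P.degreeOf i ≤ 1) ∧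
      (y : ℂ) = MvPolynomial.aeval pie P)
    (h : IsAlgebraic ℚ (Real.exp (x * Real.log a + v + y * Real.log Real.pi))) :
    (a : ℂ) ∈ Exc pie logpi 1 := by
  obtain ⟨P, hP1, hP2⟩ := hP
  obtain ⟨T, hT1, hT2⟩ := hT
  obtain ⟨S, hS1, hS2⟩ := hS
  refine ⟨halg.algebraMap, ((Real.log a : ℝ) : ℂ), ?_, ((x : ℂ), (v : ℂ), fun _ => (y : ℂ)),
    ⟨Pool.Agent.HP778.ofReal_transcendental hx, P, 1, T, fun _ => S, hP1, ?_, hT1,
      fun _ i => hS1 i, ?_, ?_, ?_, ?_⟩, ?_⟩
  · rw [← Complex.ofReal_exp, Real.exp_log ha]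
  · intro i
    simp
  · simp
  · simpa using hP2
  · simpa using hT2
  · intro j
    simpa using hS2
  · refine alg_prods ?_ ?_
    · have h1 : IsAlgebraic ℚ ((Real.exp (x * Real.log a + v + y * Real.log Real.pi) : ℝ) : ℂ) :=
        h.algebraMap
      have h2 : ((Real.exp (x * Real.log a + v + y * Real.log Real.pi) : ℝ) : ℂ) =
          Complex.exp ((x : ℂ) * ((Real.log a : ℝ) : ℂ)) * Complex.exp (v : ℂ) *
            ∏ j, Complex.exp ((y : ℂ) * logpi j) := by
        rw [Complex.ofReal_exp]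
        push_cast
        rw [Complex.exp_add, Complex.exp_add]
        simp [logpi]
      rw [h2] at h1
      exact h1
    · exact mul_ne_zero (mul_ne_zero (Complex.exp_ne_zero _) (Complex.exp_ne_zero _))
        (Finset.prod_ne_zero_iff.2 fun _ _ => Complex.exp_ne_zero _)

theorem lin {c : ℝ} (hc : IsAlgebraic ℚ c) (j : Fin 2) (x : ℝ) (hx : pie j = (x : ℂ)) :
    ∃ P : MvPolynomial (Fin 2) (algebraicClosure ℚ ℂ),
      (∀ i, P.degreeOf i ≤ 1) ∧ (((c * x : ℝ)) : ℂ) = MvPolynomial.aeval pie P := by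
  classical
  refine ⟨MvPolynomial.C ⟨(c : ℂ), mem_algebraicClosure_iff.2 hc.algebraMap⟩ * MvPolynomial.X j,
    fun i => ?_, ?_⟩
  · refine (MvPolynomial.degreeOf_C_mul_le _ _ _).trans ?_
    rw [MvPolynomial.degreeOf_X]
    split_ifs <;> simp
  · rw [map_mul, MvPolynomial.aeval_C, MvPolynomial.aeval_X, hx]
    push_cast
    rfl

theorem lin_zero : ∃ P : MvPolynomial (Fin 2) (algebraicClosure ℚ ℂ),
    (∀ i, P.degreeOf i ≤ 1) ∧ (((0 : ℝ)) : ℂ) = MvPolynomial.aeval pie P :=
  ⟨0, fun i => by simp, by simp⟩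

theorem tr_mul {c : ℝ} (hc : IsAlgebraic ℚ c) (hc0 : c ≠ 0) {x : ℝ} (hx : Transcendental ℚ x) :
    Transcendental ℚ (c * x) := by
  intro h
  apply hx
  have h2 : x = c⁻¹ * (c * x) := by
    rw [← mul_assoc, inv_mul_cancel₀ hc0, one_mul]
  rw [h2]
  exact hc.inv.mul h

open Pool.Agent.H340R2.LW (transcendental_pi transcendental_exp_one) in
/-- the five numbers for algebraic multiples of `π` and `e` -/
theorem five {a b : ℝ} (haa : IsAlgebraic ℚ a) (hba : IsAlgebraic ℚ b) (haR : 0 < a) (hbR : 0 < b)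
    (ha' : (a : ℂ) ∉ Exc pie logpi 1) (hb' : (b : ℂ) ∉ Exc pie logpi 1) :
    FourOfFive (a * Real.pi) (b * Real.exp 1) := by
  have hpi := Real.pi_pos
  have he := Real.exp_pos 1
  have e0 : pie 0 = ((Real.pi : ℝ) : ℂ) := rfl
  have e1 : pie 1 = ((Real.exp 1 : ℝ) : ℂ) := rfl
  refine ⟨fun h => ha' ?_, fun h => hb' ?_, fun h => ha' ?_, ?_⟩
  · exact mem_exc haR haa (tr_mul hba hbR.ne' transcendental_exp_one)
      (lin hba 1 _ e1) lin_zero (lin hba 1 _ e1) (by
        rw [Real.rpow_def_of_pos (mul_pos haR hpi), Real.log_mul haR.ne' hpi.ne'] at h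
        have h2 : b * Real.exp 1 * Real.log a + 0 + b * Real.exp 1 * Real.log Real.pi =
          (Real.log a + Real.log Real.pi) * (b * Real.exp 1) := by ring
        rw [h2]
        exact not_not.1 (fun h3 => h3 h))
  · exact mem_exc hbR hba (tr_mul hba hbR.ne' transcendental_exp_one)
      (lin hba 1 _ e1) (lin hba 1 _ e1) lin_zero (by
        rw [Real.rpow_def_of_pos (mul_pos hbR he), Real.log_mul hbR.ne' he.ne', Real.log_exp] at h
        have h2 : b * Real.exp 1 * Real.log b + b * Real.exp 1 +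
          0 * Real.log Real.pi = (Real.log b + 1) * (b * Real.exp 1) := by ring
        rw [h2]
        exact h)
  · exact mem_exc haR haa (tr_mul haa haR.ne' transcendental_pi)
      (lin haa 0 _ e0) lin_zero (lin haa 0 _ e0) (by
        rw [Real.rpow_def_of_pos (mul_pos haR hpi), Real.log_mul haR.ne' hpi.ne'] at h
        have h2 : a * Real.pi * Real.log a + 0 + a * Real.pi * Real.log Real.pi =
          (Real.log a + Real.log Real.pi) * (a * Real.pi) := by ring
        rw [h2]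
        exact h)
  · by_contra hcon
    rw [not_or] at hcon
    have h1 : IsAlgebraic ℚ (a * Real.pi + b * Real.exp 1) := not_not.1 hcon.1
    have h2 : IsAlgebraic ℚ (a * Real.pi * (b * Real.exp 1)) := not_not.1 hcon.2
    apply tr_mul haa haR.ne' transcendental_pi
    obtain ⟨u, hu⟩ : ∃ u, u = a * Real.pi := ⟨_, rfl⟩
    obtain ⟨w, hw⟩ : ∃ w, w = b * Real.exp 1 := ⟨_, rfl⟩
    rw [← hu, ← hw] at h1 h2
    rw [← hu]
    -- `(u - w) ^ 2 = (u + w) ^ 2 - 4 u w`
    have h3 : IsAlgebraic ℚ ((u - w) ^ 2) := by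
      have e : (u - w) ^ 2 = (u + w) ^ 2 - ((4 : ℕ) : ℝ) * (u * w) := by push_cast; ring
      rw [e]
      exact (h1.pow 2).sub ((isAlgebraic_natCast 4).mul h2)
    have h4 : IsAlgebraic ℚ (u - w) := IsAlgebraic.of_pow two_pos h3
    have h5 : u = ((2 : ℕ) : ℝ)⁻¹ * ((u + w) + (u - w)) := by push_cast; ring
    rw [h5]
    exact ((isAlgebraic_natCast 2).inv).mul (h1.add h4)

theorem exc_excHull {a : ℂ} (h : a ∈ Exc pie logpi 1) : a ∈ ExcHull pie logpi 1 := by
  refine subset_mulHull (A := Exc pie logpi 1) h ?_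
  obtain ⟨-, l, hl, -⟩ := h
  rw [← hl]
  exact Complex.exp_ne_zero l

theorem five_finite (K : IntermediateField ℚ ℂ) [FiniteDimensional ℚ K] (F : Polynomial ℂ)
    (hF : IsCubic F) (f g : Polynomial ℂ × Polynomial ℂ × Polynomial ℂ) (hf : f ∈ Functions)
    (hg : g ∈ Functions) :
    {Q ∈ points K F | ∃ a b : ℝ, 0 < a ∧ 0 < b ∧ value f Q = a ∧ value g Q = b ∧
      ¬ FourOfFive (a * Real.pi) (b * Real.exp 1)}.Finite := by
  refine ((values pie logpi 1 K F hF f hf).union (values pie logpi 1 K F hF g hg)).subset ?_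
  rintro Q ⟨hQ, a, b, ha, hb, hfa, hgb, hno⟩
  have haa : IsAlgebraic ℚ a := by
    have h1 := value_alg hf hQ
    rw [hfa] at h1
    exact (isAlgebraic_algebraMap_iff (A := ℂ) Complex.ofReal_injective).1 h1
  have hba : IsAlgebraic ℚ b := by
    have h1 := value_alg hg hQ
    rw [hgb] at h1
    exact (isAlgebraic_algebraMap_iff (A := ℂ) Complex.ofReal_injective).1 h1
  have hne : ∀ (f : Polynomial ℂ × Polynomial ℂ × Polynomial ℂ) (c : ℝ), 0 < c → value f Q = c →
      f.2.2.eval Q.1 ≠ 0 := by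
    intro f c hc hfc h0
    unfold value at hfc
    rw [h0, div_zero] at hfc
    exact hc.ne (Complex.ofReal_injective (by rw [← hfc]; rfl))
  by_cases h1 : (a : ℂ) ∈ Exc pie logpi 1
  · exact Or.inl ⟨hQ, hne f a ha hfa, by rw [hfa]; exact exc_excHull h1⟩
  by_cases h2 : (b : ℂ) ∈ Exc pie logpi 1
  · exact Or.inr ⟨hQ, hne g b hb hgb, by rw [hgb]; exact exc_excHull h2⟩
  exact absurd (five haa hba ha hb h1 h2) hno

/-! ### The curve `y ^ 2 = x ^ 3 - 2` -/

theorem double {x y : ℚ} (h : y ^ 2 = x ^ 3 - 2) (hy : y ≠ 0) :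
    ((x ^ 6 - 40 * x ^ 3 - 32) / (8 * y ^ 3)) ^ 2 =
      ((x ^ 4 + 16 * x) / (4 * (x ^ 3 - 2))) ^ 3 - 2 := by
  have h6 : y ^ 6 = (x ^ 3 - 2) ^ 3 := by rw [← h]; ring
  have hx : x ^ 3 - 2 ≠ 0 := by rw [← h]; exact pow_ne_zero 2 hy
  rw [div_pow, div_pow, mul_pow, ← pow_mul, show 3 * 2 = 6 from rfl, h6, mul_pow]
  field_simp
  ring

theorem val_double {x : ℚ} (hx : x ≠ 0) (hv : padicValRat 2 x ≤ 0) :
    x ^ 3 - 2 ≠ 0 ∧ (x ^ 4 + 16 * x) / (4 * (x ^ 3 - 2)) ≠ 0 ∧
      padicValRat 2 ((x ^ 4 + 16 * x) / (4 * (x ^ 3 - 2))) = padicValRat 2 x - 2 := by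
  have : Fact (Nat.Prime 2) := ⟨Nat.prime_two⟩
  have v2 : padicValRat 2 (2 : ℚ) = 1 := by
    have := padicValRat.self (p := 2) one_lt_two
    exact_mod_cast this
  have v4 : padicValRat 2 (4 : ℚ) = 2 := by
    have h1 : (4 : ℚ) = 2 ^ 2 := by norm_num
    rw [h1, padicValRat.pow, v2]
    norm_num
  have v16 : padicValRat 2 (16 : ℚ) = 4 := by
    have h1 : (16 : ℚ) = 2 ^ 4 := by norm_num
    rw [h1, padicValRat.pow, v2]
    norm_num
  have vx3 : padicValRat 2 (x ^ 3) = 3 * padicValRat 2 x := by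
    rw [padicValRat.pow]
    norm_num
  have vx4 : padicValRat 2 (x ^ 4) = 4 * padicValRat 2 x := by
    rw [padicValRat.pow]
    norm_num
  have vn2 : padicValRat 2 (-2 : ℚ) = 1 := by rw [padicValRat.neg, v2]
  have h1 : x ^ 3 + -2 ≠ 0 := by
    intro h
    have h2 : x ^ 3 = 2 := by linear_combination h
    rw [h2, v2] at vx3
    omega
  have e1 : padicValRat 2 (x ^ 3 + -2) = 3 * padicValRat 2 x := by
    rw [padicValRat.add_eq_of_lt h1 (pow_ne_zero 3 hx) (by norm_num) (by rw [vx3, vn2]; omega), vx3]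
  have v16x : padicValRat 2 (16 * x) = 4 + padicValRat 2 x := by
    rw [padicValRat.mul (by norm_num) hx, v16]
  have h3 : x ^ 4 + 16 * x ≠ 0 := by
    intro h
    have h4 : x ^ 4 = -(16 * x) := by linear_combination h
    rw [h4, padicValRat.neg, v16x] at vx4
    omega
  have e2 : padicValRat 2 (x ^ 4 + 16 * x) = 4 * padicValRat 2 x := by
    rw [padicValRat.add_eq_of_lt h3 (pow_ne_zero 4 hx) (mul_ne_zero (by norm_num) hx)
      (by rw [vx4, v16x]; omega), vx4]
  have h5 : x ^ 3 - 2 ≠ 0 := by rw [sub_eq_add_neg]; exact h1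
  refine ⟨h5, div_ne_zero h3 (mul_ne_zero (by norm_num) h5), ?_⟩
  rw [padicValRat.div h3 (mul_ne_zero (by norm_num) h5), padicValRat.mul (by norm_num) h5, v4,
    sub_eq_add_neg (x ^ 3) 2, e1, e2]
  ring

theorem points_infinite : {x : ℚ | ∃ y : ℚ, y ^ 2 = x ^ 3 - 2}.Infinite := by
  have h1 : ∀ n : ℕ, ∃ x y : ℚ, y ^ 2 = x ^ 3 - 2 ∧ x ≠ 0 ∧ padicValRat 2 x = -(2 * (n : ℤ)) := by
    intro n
    induction n with
    | zero =>
      refine ⟨3, 5, by norm_num, by norm_num, ?_⟩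
      rw [Nat.cast_zero, mul_zero, neg_zero]
      have h2 : (3 : ℚ) = ((3 : ℕ) : ℚ) := by norm_num
      rw [h2, padicValRat.of_nat]
      have h3 : padicValNat 2 3 = 0 := padicValNat.eq_zero_of_not_dvd (by norm_num)
      rw [h3]
      rfl
    | succ n ih =>
      obtain ⟨x, y, hxy, hx, hv⟩ := ih
      obtain ⟨h2, h3, h4⟩ := val_double hx (by rw [hv]; omega)
      have hy : y ≠ 0 := by
        rintro rfl
        apply h2
        rw [← hxy]
        norm_num
      refine ⟨_, _, double hxy hy, h3, ?_⟩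
      rw [h4, hv]
      push_cast
      ring
  choose x y hxy hx hv using h1
  refine Set.infinite_of_injective_forall_mem (f := x) (fun m n hmn => ?_) fun n => ⟨y n, hxy n⟩
  have h2 := hv m
  rw [hmn, hv n] at h2
  omega

theorem curve_two : {x : ℚ | (∃ y : ℚ, y ^ 2 = x ^ 3 - 2) ∧
    ¬ FourOfFive ((x : ℝ) * Real.pi) ((x : ℝ) * Real.exp 1)}.Finite := by
  have hF : IsCubic (Polynomial.X ^ 3 - Polynomial.C 2) := by
    refine ⟨fun i => ?_, Polynomial.monic_X_pow_sub_C _ (by norm_num), ?_, ?_⟩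
    · rw [Polynomial.coeff_sub, Polynomial.coeff_X_pow, Polynomial.coeff_C]
      have h2 : IsAlgebraic ℚ (2 : ℂ) := by exact_mod_cast isAlgebraic_natCast (R := ℚ) (A := ℂ) 2
      split_ifs
      · exact isAlgebraic_one.sub h2
      · exact isAlgebraic_one.sub isAlgebraic_zero
      · exact isAlgebraic_zero.sub h2
      · exact isAlgebraic_zero.sub isAlgebraic_zero
    · exact Polynomial.natDegree_X_pow_sub_C
    · exact Polynomial.separable_X_pow_sub_C (2 : ℂ) (by norm_num) (by norm_num)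
  have hf : ((Polynomial.X, 0, 1) : Polynomial ℂ × Polynomial ℂ × Polynomial ℂ) ∈ Functions := by
    refine ⟨fun i => ?_, fun i => ?_, fun i => ?_, one_ne_zero, ?_⟩
    · simp only [Polynomial.coeff_X]
      split_ifs
      · exact isAlgebraic_one
      · exact isAlgebraic_zero
    · simp only [Polynomial.coeff_zero]
      exact isAlgebraic_zero
    · simp only [Polynomial.coeff_one]
      split_ifs
      · exact isAlgebraic_one
      · exact isAlgebraic_zero
    · rintro ⟨-, c, hc⟩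
      simp only [mul_one] at hc
      have h1 := congrArg Polynomial.natDegree hc
      rw [Polynomial.natDegree_X, Polynomial.natDegree_C] at h1
      exact one_ne_zero h1
  have hfd : FiniteDimensional ℚ (⊥ : IntermediateField ℚ ℂ) := inferInstance
  have h1 := five_finite ⊥ _ hF _ _ hf hf
  have h2 := h1.image Prod.fst
  refine (h2.preimage (f := fun x : ℚ => (x : ℂ)) (Rat.cast_injective.injOn)).subset ?_
  rintro x ⟨⟨y, hxy⟩, hno⟩
  have hx : 0 < x := by
    by_contra hx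
    rw [not_lt] at hx
    have h3 : x ^ 3 ≤ 0 := by
      have : x ^ 3 = x * x ^ 2 := by ring
      rw [this]
      exact mul_nonpos_of_nonpos_of_nonneg hx (sq_nonneg x)
    nlinarith [sq_nonneg y]
  refine ⟨((x : ℂ), (y : ℂ)), ⟨⟨?_, ?_, ?_⟩, (x : ℝ), (x : ℝ), ?_, ?_, ?_, ?_, hno⟩, rfl⟩
  · exact IntermediateField.mem_bot.2 ⟨x, by simp⟩
  · exact IntermediateField.mem_bot.2 ⟨y, by simp⟩
  · show (y : ℂ) ^ 2 = Polynomial.eval (x : ℂ) (Polynomial.X ^ 3 - Polynomial.C 2)
    simp only [Polynomial.eval_sub, Polynomial.eval_pow, Polynomial.eval_X, Polynomial.eval_C]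
    exact_mod_cast hxy
  · exact_mod_cast hx
  · exact_mod_cast hx
  · simp [value]
  · simp [value]

/-- **Main result.**

(1) Let `t_1, ..., t_r` and `w_1, ..., w_s` be any complex numbers and `D ≥ 0`. Let `K` be a number
field (in `ℂ`), `y ^ 2 = F(x)` an elliptic curve and `f` a non-constant rational function on it, with
algebraic coefficients. The value `f(Q)` is in `ExcHull t w D` for only finitely many points `Q` of
the curve with coordinates in `K`.

(2) Let `f` and `g` be two such functions. For all but finitely many points `Q` with coordinates in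
`K` with real and positive values `f(Q)`, `g(Q)`, the numbers `P = f(Q) π` and `E = g(Q) e` are such
that `P ^ E`, `E ^ E`, `P ^ P` and at least one of `P + E`, `P E` are transcendental.

(3) The curve `y ^ 2 = x ^ 3 - 2`: this holds for `P = x π`, `E = x e`, for all but finitely many of the
infinitely many rational numbers `x` for which `x ^ 3 - 2` is a square in `ℚ`.

(4) All nonzero algebraic numbers are in `Prods`. -/
theorem result :
    (∀ (r s : ℕ) (t : Fin r → ℂ) (w : Fin s → ℂ) (D : ℕ) (K : IntermediateField ℚ ℂ),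
      FiniteDimensional ℚ K → ∀ F : Polynomial ℂ, IsCubic F → ∀ f ∈ Functions,
      {Q ∈ points K F | f.2.2.eval Q.1 ≠ 0 ∧ value f Q ∈ ExcHull t w D}.Finite) ∧
    (∀ K : IntermediateField ℚ ℂ, FiniteDimensional ℚ K → ∀ F : Polynomial ℂ, IsCubic F →
      ∀ f ∈ Functions, ∀ g ∈ Functions,
      {Q ∈ points K F | ∃ a b : ℝ, 0 < a ∧ 0 < b ∧ value f Q = a ∧ value g Q = b ∧
        ¬ FourOfFive (a * Real.pi) (b * Real.exp 1)}.Finite) ∧
    ({x : ℚ | ∃ y : ℚ, y ^ 2 = x ^ 3 - 2}.Infinite ∧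
      {x : ℚ | (∃ y : ℚ, y ^ 2 = x ^ 3 - 2) ∧
        ¬ FourOfFive ((x : ℝ) * Real.pi) ((x : ℝ) * Real.exp 1)}.Finite) ∧
    (∀ x : ℂ, x ≠ 0 → IsAlgebraic ℚ x → x ∈ Prods) := by
  refine ⟨fun r s t w D K hK F hF f hf => ?_, fun K hK F hF f hf g hg => ?_,
    ⟨points_infinite, curve_two⟩, fun x hx0 hx => alg_prods hx hx0⟩
  · exact values t w D K F hF f hf
  · exact five_finite K F hF f g hf hg

end Pool.Agent.Results.MP_a49cf6_nt.MultiplesByEllipticPoints
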