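import Mathlib
import Pool.Agent.H594.ML.IntC
import Pool.Agent.H594.ML.Exc
import Pool.Graph.R_seed8.H340R2.LW

/-!
# The five numbers for the multiples of `π` and `e` by values of polynomials at integers

At least four of the five numbers `π' + e'`, `π' e'`, `π' ^ e'`, `e' ^ e'`, `π' ^ π'` are
transcendental, where `π' = f(n) π` and `e' = g(n) e`, for all but finitely many integers `n`, if `f`
and `g` are polynomials with at least two different complex zeros, for instance
`f = g = X ^ 2 + 1`. (The question is about `f = g = 1`.)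

More generally we consider, for any complex numbers `t_1, ..., t_r` and `w_1, ..., w_s`, the
algebraic numbers `a` for which SOME number `a ^ x e ^ v e ^ (y_1 w_1) ⋯ e ^ (y_s w_s)` is algebraic,
where `x` (transcendental), `v`, `y_j` are quotients of polynomials of degree at most `D` in `t` with
algebraic coefficients and a common denominator; for instance `a ^ x e ^ v π ^ y` with exponents in
`ℚ̄(π, e)`. By a theorem of six exponentials type for all these exponents at once (starting files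
`Pool.Agent.K3h86.PT`) these numbers `a` generate a group of finite rank. On the other hand the value
`h(z)` of a rational function with at least two zeros or poles at an element `z` of a finitely
generated ring `R` of algebraic numbers is in the division hull of a given finitely generated group for
only finitely many `z` (`Pool.Agent.H594.ML.int_finite`): for two zeros or poles `a ≠ b` of `h` both
`z - a` and `z - b` are units outside a finite set of places, and the equation `u - v = b - a` has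
finitely many solutions in a finitely generated group (starting files `Pool.Agent.Q204.UF`). The
functions `h = c (z - a) ^ m` have to be excluded here.
-/

set_option autoImplicit false

namespace Pool.Agent.Results.MP_a49cf6_nt.MultiplesByRationalFunctions

open Pool.Agent.H594.ML
open Pool.Agent.HP778 (mem_of_exp natCast_cpow)

/-- The linear combinations, with algebraic coefficients, of `1` and of logarithms of algebraic
numbers. -/
noncomputable def LogForms : Submodule (algebraicClosure ℚ ℂ) ℂ :=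
  Submodule.span (algebraicClosure ℚ ℂ) ({1} ∪ {z : ℂ | IsAlgebraic ℚ (Complex.exp z)})

/-- The numbers `e ^ z` with `z` in `LogForms`, i.e. the numbers `e ^ γ α_1 ^ β_1 ⋯ α_k ^ β_k` with
algebraic `γ`, `α_i ≠ 0`, `β_i`. All nonzero algebraic numbers are of this form. -/
def Prods : Set ℂ := {x | ∃ z ∈ LogForms, Complex.exp z = x}

/-- the triples `(P(t) / Q(t), T(t) / Q(t), (S_j(t) / Q(t)))` with polynomials `P`, `Q`, `T`, `S_j`
with algebraic coefficients and of degree at most `D` in each of the `r` variables, such that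
`P(t) / Q(t)` is transcendental -/
def ratExps {r : ℕ} (t : Fin r → ℂ) (s D : ℕ) : Set (ℂ × ℂ × (Fin s → ℂ)) :=
  {E₀ | Transcendental ℚ E₀.1 ∧ ∃ (P Q T : MvPolynomial (Fin r) (algebraicClosure ℚ ℂ))
    (S : Fin s → MvPolynomial (Fin r) (algebraicClosure ℚ ℂ)),
    (∀ i, P.degreeOf i ≤ D) ∧ (∀ i, Q.degreeOf i ≤ D) ∧ (∀ i, T.degreeOf i ≤ D) ∧
    (∀ j i, (S j).degreeOf i ≤ D) ∧ MvPolynomial.aeval t Q ≠ 0 ∧
    E₀.1 = MvPolynomial.aeval t P / MvPolynomial.aeval t Q ∧
    E₀.2.1 = MvPolynomial.aeval t T / MvPolynomial.aeval t Q ∧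
    ∀ j, E₀.2.2 j = MvPolynomial.aeval t (S j) / MvPolynomial.aeval t Q}

/-- The nonzero algebraic numbers `a = e ^ l` (`l` is any logarithm of `a`) such that
`a ^ x e ^ v e ^ (y_1 w_1) ⋯ e ^ (y_s w_s)`, where `a ^ x = e ^ (x l)`, is in `Prods` for SOME
`(x, v, y)` in `ratExps t s D`. -/
def Exc {r s : ℕ} (t : Fin r → ℂ) (w : Fin s → ℂ) (D : ℕ) : Set ℂ :=
  {a | IsAlgebraic ℚ a ∧ ∃ l : ℂ, Complex.exp l = a ∧ ∃ E₀ ∈ ratExps t s D,
    Complex.exp (E₀.1 * l) * Complex.exp E₀.2.1 * ∏ j, Complex.exp (E₀.2.2 j * w j) ∈ Prods}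

theorem alg_prods {x : ℂ} (hx : IsAlgebraic ℚ x) (hx0 : x ≠ 0) : x ∈ Prods := by
  refine ⟨Complex.log x, ?_, Complex.exp_log hx0⟩
  refine Submodule.subset_span (Or.inr ?_)
  change IsAlgebraic ℚ (Complex.exp (Complex.log x))
  rwa [Complex.exp_log hx0]

theorem exc_hull {r s : ℕ} (t : Fin r → ℂ) (w : Fin s → ℂ) (D : ℕ) :
    ∃ Γ : Subgroup (Pool.Agent.Helper259.AbsHt.Qbar)ˣ, Γ.FG ∧
      ∀ a ∈ Exc t w D, ∃ u ∈ Pool.Agent.Y215.SK.DivHull Γ, a = sg u := by
  obtain ⟨Γ, hΓ, h⟩ := hull_multi t w D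
  refine ⟨Γ, hΓ, ?_⟩
  rintro a ⟨ha, l, rfl, E₀, ⟨hx, P, Q, T, S, hP, hQ, hT, hS, hQ0, h1, h2, h3⟩, z, hz, hze⟩
  refine h l ha ⟨E₀.1, E₀.2.1, E₀.2.2, ⟨P, Q, T, S, hP, hQ, hT, hS, hQ0, h1, h2, h3⟩, hx, ?_⟩
  rw [← Complex.exp_sum, ← Complex.exp_add, ← Complex.exp_add] at hze
  exact mem_of_exp hz hze.symm

/-- the complex numbers a positive power of which is a product of elements of `Exc t w D` and of
inverses of such elements -/
def ExcHull {r s : ℕ} (t : Fin r → ℂ) (w : Fin s → ℂ) (D : ℕ) : Set ℂ :=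
  {a | ∃ u : ℂˣ, (u : ℂ) = a ∧ ∃ k : ℕ, 0 < k ∧
    u ^ k ∈ Subgroup.closure {v : ℂˣ | (v : ℂ) ∈ Exc t w D}}

/-- `(π, e)` -/
noncomputable def pie : Fin 2 → ℂ := ![((Real.pi : ℝ) : ℂ), ((Real.exp 1 : ℝ) : ℂ)]

/-- `log π` -/
noncomputable def logpi : Fin 1 → ℂ := ![((Real.log Real.pi : ℝ) : ℂ)]

theorem values {r s : ℕ} (t : Fin r → ℂ) (w : Fin s → ℂ) (D : ℕ) (A : Finset ℂ)
    (hA : ∀ x ∈ A, IsAlgebraic ℚ x) (h : RatFunc ℂ) (a b : ℂ) (hab : a ≠ b)
    (ha : (h.num * h.denom).eval a = 0) (hb : (h.num * h.denom).eval b = 0) :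
    {z : ℂ | z ∈ Subring.closure (A : Set ℂ) ∧ h.eval (RingHom.id ℂ) z ∈ ExcHull t w D}.Finite := by
  obtain ⟨Γ, hΓ, hex⟩ := exc_hull t w D
  refine (int_finite Γ hΓ A hA h a b hab ha hb).subset ?_
  rintro z ⟨hz1, hz2⟩
  exact ⟨hz1, mulHull_hull hex hz2⟩

theorem int_values (f : Polynomial ℤ) (hf : ∃ a b : ℂ, a ≠ b ∧ Polynomial.aeval a f = 0 ∧
    Polynomial.aeval b f = 0) :
    {n : ℤ | ((f.eval n : ℤ) : ℂ) ∈ Exc pie logpi 1}.Finite := by
  obtain ⟨a, b, hab, ha, hb⟩ := hf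
  obtain ⟨p, hp⟩ : ∃ p : Polynomial ℂ, p = f.map (Int.castRingHom ℂ) := ⟨_, rfl⟩
  have hroot : ∀ c : ℂ, Polynomial.aeval c f = 0 →
      ((algebraMap (Polynomial ℂ) (RatFunc ℂ) p).num *
        (algebraMap (Polynomial ℂ) (RatFunc ℂ) p).denom).eval c = 0 := by
    intro c hc
    rw [RatFunc.num_algebraMap, RatFunc.denom_algebraMap, mul_one, hp, Polynomial.eval_map]
    exact hc
  have h1 := values pie logpi 1 ∅ (by simp) (algebraMap (Polynomial ℂ) (RatFunc ℂ) p) a b hab
    (hroot a ha) (hroot b hb)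
  have h2 : {n : ℤ | ((f.eval n : ℤ) : ℂ) ∈ Exc pie logpi 1} ⊆ (fun n : ℤ => (n : ℂ)) ⁻¹'
      {z : ℂ | z ∈ Subring.closure ((∅ : Finset ℂ) : Set ℂ) ∧
        (algebraMap (Polynomial ℂ) (RatFunc ℂ) p).eval (RingHom.id ℂ) z ∈
          ExcHull pie logpi 1} := by
    intro n hn
    refine ⟨intCast_mem _ n, ?_⟩
    rw [RatFunc.eval_algebraMap]
    have h3 : (algebraMap (Polynomial ℂ) (Polynomial ℂ) p).eval₂ (RingHom.id ℂ) (n : ℂ) =
        ((f.eval n : ℤ) : ℂ) := by
      rw [Algebra.algebraMap_self, RingHom.id_apply, Polynomial.eval₂_id, hp,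
        Polynomial.eval_intCast_map]
      simp
    rw [h3]
    refine subset_mulHull (A := Exc pie logpi 1) hn ?_
    obtain ⟨-, l, hl, -⟩ := hn
    rw [← hl]
    exact Complex.exp_ne_zero l
  exact (h1.preimage (Int.cast_injective.injOn)).subset h2

/-- the exceptional numbers of the three kinds which are needed for the question -/
theorem mem_exc {a : ℝ} (ha : 0 < a) (halg : IsAlgebraic ℚ a) {x y v : ℝ}
    (hx : Transcendental ℚ x)
    (hP : ∃ P : MvPolynomial (Fin 2) (algebraicClosure ℚ ℂ), (∀ i, P.degreeOf i ≤ 1) ∧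
      (x : ℂ) = MvPolynomial.aeval pie P)
    (hT : ∃ P : MvPolynomial (Fin 2) (algebraicClosure ℚ ℂ), (∀ i, P.degreeOf i ≤ 1) ∧
      (v : ℂ) = MvPolynomial.aeval pie P)
    (hS : ∃ P : MvPolynomial (Fin 2) (algebraicClosure ℚ ℂ), (∀ i, P.degreeOf i ≤ 1) ∧
      (y : ℂ) = MvPolynomial.aeval pie P)
    (h : IsAlgebraic ℚ (Real.exp (x * Real.log a + v + y * Real.log Real.pi))) :
    (a : ℂ) ∈ Exc pie logpi 1 := by
  obtain ⟨P, hP1, hP2⟩ := hP
  obtain ⟨T, hT1, hT2⟩ := hT
  obtain ⟨S, hS1, hS2⟩ := hS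
  refine ⟨halg.algebraMap, ((Real.log a : ℝ) : ℂ), ?_, ((x : ℂ), (v : ℂ), fun _ => (y : ℂ)),
    ⟨Pool.Agent.HP778.ofReal_transcendental hx, P, 1, T, fun _ => S, hP1, ?_, hT1,
      fun _ i => hS1 i, ?_, ?_, ?_, ?_⟩, ?_⟩
  · rw [← Complex.ofReal_exp, Real.exp_log ha]
  · intro i
    simp
  · simp
  · simpa using hP2
  · simpa using hT2
  · intro j
    simpa using hS2
  · refine alg_prods ?_ ?_
    · have h1 : IsAlgebraic ℚ ((Real.exp (x * Real.log a + v + y * Real.log Real.pi) : ℝ) : ℂ) :=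
        h.algebraMap
      have h2 : ((Real.exp (x * Real.log a + v + y * Real.log Real.pi) : ℝ) : ℂ) =
          Complex.exp ((x : ℂ) * ((Real.log a : ℝ) : ℂ)) * Complex.exp (v : ℂ) *
            ∏ j, Complex.exp ((y : ℂ) * logpi j) := by
        rw [Complex.ofReal_exp]
        push_cast
        rw [Complex.exp_add, Complex.exp_add]
        simp [logpi]
      rw [h2] at h1
      exact h1
    · exact mul_ne_zero (mul_ne_zero (Complex.exp_ne_zero _) (Complex.exp_ne_zero _))
        (Finset.prod_ne_zero_iff.2 fun _ _ => Complex.exp_ne_zero _)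

theorem lin (c : ℤ) (j : Fin 2) (x : ℝ) (hx : pie j = (x : ℂ)) :
    ∃ P : MvPolynomial (Fin 2) (algebraicClosure ℚ ℂ),
      (∀ i, P.degreeOf i ≤ 1) ∧ ((((c : ℝ) * x : ℝ)) : ℂ) = MvPolynomial.aeval pie P := by
  classical
  refine ⟨MvPolynomial.C (c : algebraicClosure ℚ ℂ) * MvPolynomial.X j, fun i => ?_, ?_⟩
  · refine (MvPolynomial.degreeOf_C_mul_le _ _ _).trans ?_
    rw [MvPolynomial.degreeOf_X]
    split_ifs <;> simp
  · rw [map_mul, MvPolynomial.aeval_C, MvPolynomial.aeval_X, hx, map_intCast]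
    push_cast
    rfl

theorem lin_zero : ∃ P : MvPolynomial (Fin 2) (algebraicClosure ℚ ℂ),
    (∀ i, P.degreeOf i ≤ 1) ∧ (((0 : ℝ)) : ℂ) = MvPolynomial.aeval pie P :=
  ⟨0, fun i => by simp, by simp⟩

theorem tr_mul {c : ℤ} (hc : c ≠ 0) {x : ℝ} (hx : Transcendental ℚ x) :
    Transcendental ℚ ((c : ℝ) * x) := by
  intro h
  apply hx
  have h1 : (c : ℝ) ≠ 0 := by exact_mod_cast hc
  have h2 : x = ((c : ℝ))⁻¹ * ((c : ℝ) * x) := by
    rw [← mul_assoc, inv_mul_cancel₀ h1, one_mul]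
  rw [h2]
  exact ((isAlgebraic_intCast c).inv).mul h

open Pool.Agent.H340R2.LW (transcendental_pi transcendental_exp_one) in
/-- the five numbers for integral multiples of `π` and `e` -/
theorem five (a b : ℤ) (ha : 0 < a) (hb : 0 < b) (ha' : ((a : ℤ) : ℂ) ∉ Exc pie logpi 1)
    (hb' : ((b : ℤ) : ℂ) ∉ Exc pie logpi 1) :
    Transcendental ℚ (((a : ℝ) * Real.pi) ^ ((b : ℝ) * Real.exp 1)) ∧
    Transcendental ℚ (((b : ℝ) * Real.exp 1) ^ ((b : ℝ) * Real.exp 1)) ∧
    Transcendental ℚ (((a : ℝ) * Real.pi) ^ ((a : ℝ) * Real.pi)) ∧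
    (Transcendental ℚ ((a : ℝ) * Real.pi + (b : ℝ) * Real.exp 1) ∨
      Transcendental ℚ ((a : ℝ) * Real.pi * ((b : ℝ) * Real.exp 1))) := by
  have haR : (0 : ℝ) < a := by exact_mod_cast ha
  have hbR : (0 : ℝ) < b := by exact_mod_cast hb
  have hpi := Real.pi_pos
  have he := Real.exp_pos 1
  have e0 : pie 0 = ((Real.pi : ℝ) : ℂ) := rfl
  have e1 : pie 1 = ((Real.exp 1 : ℝ) : ℂ) := rfl
  refine ⟨fun h => ha' ?_, fun h => hb' ?_, fun h => ha' ?_, ?_⟩
  · have h1 := mem_exc haR (isAlgebraic_intCast a) (tr_mul hb.ne' transcendental_exp_one)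
      (lin b 1 _ e1) lin_zero (lin b 1 _ e1) (by
        rw [Real.rpow_def_of_pos (mul_pos haR hpi), Real.log_mul haR.ne' hpi.ne'] at h
        have h2 : (b : ℝ) * Real.exp 1 * Real.log a + 0 + (b : ℝ) * Real.exp 1 * Real.log Real.pi =
          (Real.log a + Real.log Real.pi) * ((b : ℝ) * Real.exp 1) := by ring
        rw [h2]
        exact not_not.1 (fun h3 => h3 h))
    exact_mod_cast h1
  · have h1 := mem_exc hbR (isAlgebraic_intCast b) (tr_mul hb.ne' transcendental_exp_one)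
      (lin b 1 _ e1) (lin b 1 _ e1) lin_zero (by
        rw [Real.rpow_def_of_pos (mul_pos hbR he), Real.log_mul hbR.ne' he.ne', Real.log_exp] at h
        have h2 : (b : ℝ) * Real.exp 1 * Real.log b + (b : ℝ) * Real.exp 1 +
          0 * Real.log Real.pi = (Real.log b + 1) * ((b : ℝ) * Real.exp 1) := by ring
        rw [h2]
        exact h)
    exact_mod_cast h1
  · have h1 := mem_exc haR (isAlgebraic_intCast a) (tr_mul ha.ne' transcendental_pi)
      (lin a 0 _ e0) lin_zero (lin a 0 _ e0) (by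
        rw [Real.rpow_def_of_pos (mul_pos haR hpi), Real.log_mul haR.ne' hpi.ne'] at h
        have h2 : (a : ℝ) * Real.pi * Real.log a + 0 + (a : ℝ) * Real.pi * Real.log Real.pi =
          (Real.log a + Real.log Real.pi) * ((a : ℝ) * Real.pi) := by ring
        rw [h2]
        exact h)
    exact_mod_cast h1
  · by_contra hcon
    rw [not_or] at hcon
    have h1 : IsAlgebraic ℚ ((a : ℝ) * Real.pi + (b : ℝ) * Real.exp 1) := not_not.1 hcon.1
    have h2 : IsAlgebraic ℚ ((a : ℝ) * Real.pi * ((b : ℝ) * Real.exp 1)) := not_not.1 hcon.2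
    apply tr_mul ha.ne' transcendental_pi
    obtain ⟨u, hu⟩ : ∃ u, u = (a : ℝ) * Real.pi := ⟨_, rfl⟩
    obtain ⟨w, hw⟩ : ∃ w, w = (b : ℝ) * Real.exp 1 := ⟨_, rfl⟩
    rw [← hu, ← hw] at h1 h2
    rw [← hu]
    -- `(u - w) ^ 2 = (u + w) ^ 2 - 4 u w`
    have h3 : IsAlgebraic ℚ ((u - w) ^ 2) := by
      have e : (u - w) ^ 2 = (u + w) ^ 2 - ((4 : ℕ) : ℝ) * (u * w) := by push_cast; ring
      rw [e]
      exact (h1.pow 2).sub ((isAlgebraic_natCast 4).mul h2)
    have h4 : IsAlgebraic ℚ (u - w) := IsAlgebraic.of_pow two_pos h3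
    have h5 : u = ((2 : ℕ) : ℝ)⁻¹ * ((u + w) + (u - w)) := by push_cast; ring
    rw [h5]
    exact ((isAlgebraic_natCast 2).inv).mul (h1.add h4)

/-- **Main result.**

(1) Let `t_1, ..., t_r` and `w_1, ..., w_s` be any complex numbers, `D ≥ 0`, `A` a finite set of
algebraic numbers, `R = ℤ[A]`, and let `h` be a rational function with complex coefficients which
has at least two different zeros or poles in `ℂ`. Only finitely many elements `z` of `R` are such
that `h(z)` is in `ExcHull t w D`.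

(2) In particular, for `R = ℤ`: let `f`, `g` be polynomials with integral coefficients with at least
two different complex zeros each. For all but finitely many integers `n` with `f(n), g(n) > 0` the
numbers `π' = f(n) π` and `e' = g(n) e` are such that `π' ^ e'`, `e' ^ e'`, `π' ^ π'` and at
least one of `π' + e'`, `π' e'` are transcendental. So at least four of these five numbers are
transcendental.

(3) All nonzero algebraic numbers are in `Prods`. -/
theorem result :
    (∀ (r s : ℕ) (t : Fin r → ℂ) (w : Fin s → ℂ) (D : ℕ) (A : Finset ℂ),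
      (∀ x ∈ A, IsAlgebraic ℚ x) → ∀ (h : RatFunc ℂ),
      (∃ a b : ℂ, a ≠ b ∧ (h.num * h.denom).eval a = 0 ∧ (h.num * h.denom).eval b = 0) →
      {z : ℂ | z ∈ Subring.closure (A : Set ℂ) ∧
        h.eval (RingHom.id ℂ) z ∈ ExcHull t w D}.Finite) ∧
    (∀ f g : Polynomial ℤ,
      (∃ a b : ℂ, a ≠ b ∧ Polynomial.aeval a f = 0 ∧ Polynomial.aeval b f = 0) →
      (∃ a b : ℂ, a ≠ b ∧ Polynomial.aeval a g = 0 ∧ Polynomial.aeval b g = 0) →
      ∃ N : ℤ, ∀ n : ℤ, N ≤ |n| → 0 < f.eval n → 0 < g.eval n →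
        Transcendental ℚ
          ((((f.eval n : ℤ) : ℝ) * Real.pi) ^ (((g.eval n : ℤ) : ℝ) * Real.exp 1)) ∧
        Transcendental ℚ
          ((((g.eval n : ℤ) : ℝ) * Real.exp 1) ^ (((g.eval n : ℤ) : ℝ) * Real.exp 1)) ∧
        Transcendental ℚ
          ((((f.eval n : ℤ) : ℝ) * Real.pi) ^ (((f.eval n : ℤ) : ℝ) * Real.pi)) ∧
        (Transcendental ℚ
            (((f.eval n : ℤ) : ℝ) * Real.pi + ((g.eval n : ℤ) : ℝ) * Real.exp 1) ∨
          Transcendental ℚ
            (((f.eval n : ℤ) : ℝ) * Real.pi * (((g.eval n : ℤ) : ℝ) * Real.exp 1)))) ∧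
    (∀ x : ℂ, x ≠ 0 → IsAlgebraic ℚ x → x ∈ Prods) := by
  refine ⟨?_, fun f g hf hg => ?_, fun x hx0 hx => alg_prods hx hx0⟩
  · rintro r s t w D A hA h ⟨a, b, hab, ha, hb⟩
    exact values t w D A hA h a b hab ha hb
  · have h1 := (int_values f hf).union (int_values g hg)
    have h2 := h1.image (fun n : ℤ => |n|)
    obtain ⟨N, hN⟩ := h2.bddAbove
    refine ⟨N + 1, fun n hn hfn hgn => five _ _ hfn hgn (fun h => ?_) (fun h => ?_)⟩
    · have := hN ⟨n, Or.inl h, rfl⟩
      simp only at this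
      omega
    · have := hN ⟨n, Or.inr h, rfl⟩
      simp only at this
      omega

end Pool.Agent.Results.MP_a49cf6_nt.MultiplesByRationalFunctions
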