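import Mathlib
import Pool.Agent.H594.ML.UnitEq
import Pool.Graph.R_seed8.H340R2.LW

/-!
# Multiples of `π` and `e` by sparse integers, by sums of units and by linear recurrence sequences

The question is about the five numbers `P + E`, `P E`, `P ^ E`, `E ^ E`, `P ^ P` with `P = π`, `E = e`;
for none of them it is known whether it is transcendental. Here we consider multiples `P = a π`,
`E = a' e` of `π` and `e` by integers or algebraic numbers `a`, `a'` which are SUMS of boundedly many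
elements of a finitely generated multiplicative group `G` of algebraic numbers: integers with at most
`k` nonzero digits in base `b`, sums of `S`-units, Fibonacci numbers and other linear recurrence
sequences. We show that there are, up to common factors in `G`, only finitely many such sums for which
any of the numbers `P ^ E`, `E ^ E`, `P ^ P` is algebraic. So at least four of the five numbers are
transcendental

* if `P = a π`, `E = a' e` for integers `a = b ^ i m`, `a' = b ^ j m'` with at most `k` nonzero digits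
  in base `b`, where `m` and `m'` are not divisible by `b` and larger than a constant which depends
  only on `b` and `k` (the exponents `i`, `j` are arbitrary);
* if `P = F_m π`, `E = F_n e` with Fibonacci numbers `F_m`, `F_n` with large `m`, `n`.

More generally exceptional numbers are defined with ALL exponents which are values at given complex
numbers `t` of rational functions of bounded degree. The proof. The exceptional algebraic numbers lie
in a group of finite rank by a theorem of six exponentials type (starting files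
`Pool.Agent.K3h86.PT`). A theorem of Mordell-Lang type for groups of finite rank (starting files
`Pool.Agent.Q204.UF`, see `Pool.Agent.H594.ML.torP_finite`) shows that the unit equation
`x_1 + ⋯ + x_k = 1` has only finitely many solutions without vanishing subsums in such a group
(`Pool.Agent.H594.ML.unit_eq`), and hence nondegenerate power sums `u(n) = c_1 α_1 ^ n + ⋯ +
c_k α_k ^ n`, `k ≥ 2`, have only finitely many values in it (`Pool.Agent.H594.ML.powerSum_finite`).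
-/

set_option autoImplicit false

namespace Pool.Agent.Results.MP_a49cf6_nt.MultiplesBySparseIntegers

open Pool.Agent.H594.ML (hull_multi InH sums_finite powerSum_finite exists_unit sg)
open Pool.Agent.HP778 (mem_of_exp natCast_cpow)

/-- The linear combinations, with algebraic coefficients, of `1` and of logarithms of algebraic
numbers. -/
noncomputable def LogForms : Submodule (algebraicClosure ℚ ℂ) ℂ :=
  Submodule.span (algebraicClosure ℚ ℂ) ({1} ∪ {z : ℂ | IsAlgebraic ℚ (Complex.exp z)})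

/-- The numbers `e ^ z` with `z` in `LogForms`, i.e. the numbers `e ^ γ α_1 ^ β_1 ⋯ α_k ^ β_k` with
algebraic `γ`, `α_i ≠ 0`, `β_i`. All nonzero algebraic numbers are of this form. -/
def Prods : Set ℂ := {x | ∃ z ∈ LogForms, Complex.exp z = x}

/-- the triples `(P(t) / Q(t), T(t) / Q(t), (S_j(t) / Q(t)))` with polynomials `P`, `Q`, `T`, `S_j`
with algebraic coefficients and of degree at most `D` in each of the `r` variables, such that
`P(t) / Q(t)` is transcendental -/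
def ratExps {r : ℕ} (t : Fin r → ℂ) (s D : ℕ) : Set (ℂ × ℂ × (Fin s → ℂ)) :=
  {E₀ | Transcendental ℚ E₀.1 ∧ ∃ (P Q T : MvPolynomial (Fin r) (algebraicClosure ℚ ℂ))
    (S : Fin s → MvPolynomial (Fin r) (algebraicClosure ℚ ℂ)),
    (∀ i, P.degreeOf i ≤ D) ∧ (∀ i, Q.degreeOf i ≤ D) ∧ (∀ i, T.degreeOf i ≤ D) ∧
    (∀ j i, (S j).degreeOf i ≤ D) ∧ MvPolynomial.aeval t Q ≠ 0 ∧
    E₀.1 = MvPolynomial.aeval t P / MvPolynomial.aeval t Q ∧
    E₀.2.1 = MvPolynomial.aeval t T / MvPolynomial.aeval t Q ∧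
    ∀ j, E₀.2.2 j = MvPolynomial.aeval t (S j) / MvPolynomial.aeval t Q}

/-- The nonzero algebraic numbers `a = e ^ l` (`l` is any logarithm of `a`) such that
`a ^ x e ^ v e ^ (y_1 w_1) ⋯ e ^ (y_s w_s)`, where `a ^ x = e ^ (x l)`, is in `Prods` for SOME
`(x, v, y)` in `ratExps t s D`. -/
def Exc {r s : ℕ} (t : Fin r → ℂ) (w : Fin s → ℂ) (D : ℕ) : Set ℂ :=
  {a | IsAlgebraic ℚ a ∧ ∃ l : ℂ, Complex.exp l = a ∧ ∃ E₀ ∈ ratExps t s D,
    Complex.exp (E₀.1 * l) * Complex.exp E₀.2.1 * ∏ j, Complex.exp (E₀.2.2 j * w j) ∈ Prods}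

/-- The nonzero complex numbers a positive power of which is a product of elements of `S` and of
inverses of such elements. -/
def Hull (S : Set ℂ) : Set ℂ :=
  {a | ∃ u : ℂˣ, (u : ℂ) = a ∧ ∃ k : ℕ, 0 < k ∧ u ^ k ∈ Subgroup.closure {v : ℂˣ | (v : ℂ) ∈ S}}

/-- `(π, e)` -/
noncomputable def pie : Fin 2 → ℂ := ![((Real.pi : ℝ) : ℂ), ((Real.exp 1 : ℝ) : ℂ)]

/-- `log π` -/
noncomputable def logpi : Fin 1 → ℂ := ![((Real.log Real.pi : ℝ) : ℂ)]

/-- `m` has at most `k` nonzero digits in base `b`. -/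
def Sparse (b k m : ℕ) : Prop :=
  ∃ (s : Finset ℕ) (d : ℕ → ℕ), s.card ≤ k ∧ (∀ i ∈ s, 1 ≤ d i ∧ d i < b) ∧
    m = ∑ i ∈ s, d i * b ^ i

/-- At least four of the five numbers are transcendental: `P ^ E`, `E ^ E`, `P ^ P`, and one of
`P + E`, `P E`. -/
def FourOfFive (P E : ℝ) : Prop :=
  Transcendental ℚ (P ^ E) ∧ Transcendental ℚ (E ^ E) ∧ Transcendental ℚ (P ^ P) ∧
    (Transcendental ℚ (P + E) ∨ Transcendental ℚ (P * E))

theorem alg_prods {x : ℂ} (hx : IsAlgebraic ℚ x) (hx0 : x ≠ 0) : x ∈ Prods := by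
  refine ⟨Complex.log x, ?_, Complex.exp_log hx0⟩
  refine Submodule.subset_span (Or.inr ?_)
  change IsAlgebraic ℚ (Complex.exp (Complex.log x))
  rwa [Complex.exp_log hx0]

theorem exc_hull {r s : ℕ} (t : Fin r → ℂ) (w : Fin s → ℂ) (D : ℕ) :
    ∃ Γ : Subgroup (Pool.Agent.Helper259.AbsHt.Qbar)ˣ, Γ.FG ∧ ∀ a ∈ Exc t w D, InH Γ a := by
  obtain ⟨Γ, hΓ, h⟩ := hull_multi t w D
  refine ⟨Γ, hΓ, ?_⟩
  rintro a ⟨ha, l, rfl, E₀, ⟨hx, P, Q, T, S, hP, hQ, hT, hS, hQ0, h1, h2, h3⟩, z, hz, hze⟩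
  refine h l ha ⟨E₀.1, E₀.2.1, E₀.2.2, ⟨P, Q, T, S, hP, hQ, hT, hS, hQ0, h1, h2, h3⟩, hx, ?_⟩
  rw [← Complex.exp_sum, ← Complex.exp_add, ← Complex.exp_add] at hze
  exact mem_of_exp hz hze.symm

/-- a finite set of nonzero algebraic numbers and the exceptional numbers -/
theorem all_hull {r s : ℕ} (t : Fin r → ℂ) (w : Fin s → ℂ) (D : ℕ) (A : Finset ℂ)
    (hA : ∀ a ∈ A, IsAlgebraic ℚ a ∧ a ≠ 0) :
    ∃ Γ : Subgroup (Pool.Agent.Helper259.AbsHt.Qbar)ˣ, Γ.FG ∧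
      (∀ a ∈ Hull (A ∪ Exc t w D), InH Γ a) ∧ ∀ a ∈ Hull (A : Set ℂ), InH Γ a := by
  classical
  obtain ⟨Γ, hΓ, h⟩ := exc_hull t w D
  have h1 : ∀ a : ℂ, ∃ u : (Pool.Agent.Helper259.AbsHt.Qbar)ˣ, a ∈ A → a = sg u := by
    intro a
    by_cases ha : a ∈ A
    · obtain ⟨u, hu⟩ := exists_unit (hA a ha).1 (hA a ha).2
      exact ⟨u, fun _ => hu⟩
    · exact ⟨1, fun h => absurd h ha⟩
  choose U hU using h1
  have hfg : (Γ ⊔ Subgroup.closure (U '' A)).FG :=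
    Subgroup.FG.sup hΓ ((Subgroup.fg_iff _).2 ⟨U '' A, rfl, A.finite_toSet.image U⟩)
  have hmem : ∀ a ∈ (A : Set ℂ) ∪ Exc t w D, InH (Γ ⊔ Subgroup.closure (U '' A)) a := by
    rintro a (ha | ha)
    · exact ⟨U a, Pool.Agent.Y215.AF.sub_hull _ _ (Subgroup.mem_sup_right
        (Subgroup.subset_closure ⟨a, ha, rfl⟩)), hU a (Finset.mem_coe.1 ha)⟩
    · exact (h a ha).mono le_sup_left
  exact ⟨_, hfg, fun a ha => Pool.Agent.H594.ML.mulHull_hull hmem ha,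
    fun a ha => Pool.Agent.H594.ML.mulHull_hull (fun a ha => hmem a (Or.inl ha)) ha⟩

theorem subset_hull {A : Set ℂ} {a : ℂ} (ha : a ∈ A) (h0 : a ≠ 0) : a ∈ Hull A :=
  Pool.Agent.H594.ML.subset_mulHull ha h0

theorem hull_mul {A : Set ℂ} {a b : ℂ} (ha : a ∈ Hull A) (hb : b ∈ Hull A) : a * b ∈ Hull A := by
  obtain ⟨u, rfl, k, hk, hu⟩ := ha
  obtain ⟨v, rfl, l, hl, hv⟩ := hb
  refine ⟨u * v, by simp, k * l, Nat.mul_pos hk hl, ?_⟩
  have h1 : (u * v) ^ (k * l) = (u ^ k) ^ l * (v ^ l) ^ k := by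
    rw [mul_pow, pow_mul, mul_comm k l, pow_mul v]
  rw [h1]
  exact Subgroup.mul_mem _ (Subgroup.pow_mem _ hu _) (Subgroup.pow_mem _ hv _)

theorem hull_pow {A : Set ℂ} {a : ℂ} (ha : a ∈ Hull A) (n : ℕ) : a ^ n ∈ Hull A := by
  obtain ⟨u, rfl, k, hk, hu⟩ := ha
  refine ⟨u ^ n, by simp, k, hk, ?_⟩
  rw [← pow_mul, mul_comm, pow_mul]
  exact Subgroup.pow_mem _ hu _

theorem hull_inv {A : Set ℂ} {a : ℂ} (ha : a ∈ Hull A) : a⁻¹ ∈ Hull A := by
  obtain ⟨u, rfl, k, hk, hu⟩ := ha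
  refine ⟨u⁻¹, by simp, k, hk, ?_⟩
  rw [inv_pow]
  exact Subgroup.inv_mem _ hu

theorem hull_mono {A B : Set ℂ} (h : A ⊆ B) {a : ℂ} (ha : a ∈ Hull A) : a ∈ Hull B := by
  obtain ⟨u, rfl, k, hk, hu⟩ := ha
  have h1 : {v : ℂˣ | (v : ℂ) ∈ A} ⊆ {v : ℂˣ | (v : ℂ) ∈ B} := fun v hv => h hv
  exact ⟨u, rfl, k, hk, Subgroup.closure_mono h1 hu⟩

theorem sums {r s : ℕ} (t : Fin r → ℂ) (w : Fin s → ℂ) (D : ℕ) (A : Finset ℂ)
    (hA : ∀ a ∈ A, IsAlgebraic ℚ a ∧ a ≠ 0) (k : ℕ) :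
    ∃ Y : Set (Fin k → ℂ), Y.Finite ∧ ∀ x : Fin k → ℂ, (∀ i, x i ∈ Hull (A : Set ℂ)) →
      (∀ I : Finset (Fin k), I.Nonempty → ∑ i ∈ I, x i ≠ 0) →
      ∑ i, x i ∈ Hull (A ∪ Exc t w D) → ∃ y ∈ Y, ∀ i, x i = (∑ i, x i) * y i := by
  obtain ⟨Γ, hΓ, h1, h2⟩ := all_hull t w D A hA
  refine ⟨_, sums_finite Γ hΓ (Fin k), fun x hx hsub hsum => ⟨fun i => x i / ∑ i, x i,
    ⟨x, fun i => h2 _ (hx i), h1 _ hsum, hsub, rfl⟩, fun i => ?_⟩⟩
  exact (mul_div_cancel₀ _ (h1 _ hsum).ne_zero).symm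

theorem powerSums {r s : ℕ} (t : Fin r → ℂ) (w : Fin s → ℂ) (D : ℕ) (A : Finset ℂ)
    (hA : ∀ a ∈ A, IsAlgebraic ℚ a ∧ a ≠ 0) (k : ℕ) (hk : 2 ≤ k) (c α : Fin k → ℂ)
    (hc : ∀ i, IsAlgebraic ℚ (c i) ∧ c i ≠ 0) (hα : ∀ i, IsAlgebraic ℚ (α i) ∧ α i ≠ 0)
    (hnd : ∀ i j, i ≠ j → ∀ n : ℕ, 0 < n → (α i / α j) ^ n ≠ 1) :
    {n : ℕ | ∑ i, c i * α i ^ n ∈ Hull (A ∪ Exc t w D)}.Finite := by
  classical
  obtain ⟨Γ, hΓ, h1, h2⟩ := all_hull t w D (A ∪ (Finset.univ.image c ∪ Finset.univ.image α)) (by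
    intro a ha
    rcases Finset.mem_union.1 ha with ha | ha
    · exact hA a ha
    · rcases Finset.mem_union.1 ha with ha | ha
      · obtain ⟨i, -, rfl⟩ := Finset.mem_image.1 ha
        exact hc i
      · obtain ⟨i, -, rfl⟩ := Finset.mem_image.1 ha
        exact hα i)
  refine (powerSum_finite Γ hΓ hk c α (fun i => h2 _ (subset_hull ?_ (hc i).2))
    (fun i => h2 _ (subset_hull ?_ (hα i).2)) hnd).subset ?_
  · rw [Finset.coe_union, Finset.coe_union]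
    exact Or.inr (Or.inl (Finset.mem_coe.2 (Finset.mem_image_of_mem _ (Finset.mem_univ i))))
  · rw [Finset.coe_union, Finset.coe_union]
    exact Or.inr (Or.inr (Finset.mem_coe.2 (Finset.mem_image_of_mem _ (Finset.mem_univ i))))
  · intro n hn
    refine h1 _ (hull_mono ?_ hn)
    refine Set.union_subset_union_left _ ?_
    rw [Finset.coe_union]
    exact Set.subset_union_left

/-- sparse integers -/
theorem sparse {r s : ℕ} (t : Fin r → ℂ) (w : Fin s → ℂ) (D : ℕ) (b k : ℕ) (hb : 2 ≤ b) :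
    {m : ℕ | Sparse b k m ∧ ¬ b ∣ m ∧ ∃ j : ℕ, (((m * b ^ j : ℕ)) : ℂ) ∈ Exc t w D}.Finite := by
  classical
  let A : Finset ℂ := (Finset.range b).image fun d : ℕ => ((d + 1 : ℕ) : ℂ)
  have hA : ∀ a ∈ A, IsAlgebraic ℚ a ∧ a ≠ 0 := by
    intro a ha
    obtain ⟨d, -, rfl⟩ := Finset.mem_image.1 ha
    exact ⟨isAlgebraic_natCast _, Nat.cast_ne_zero.2 (by omega)⟩
  have hAd : ∀ d : ℕ, 1 ≤ d → d ≤ b → ((d : ℕ) : ℂ) ∈ Hull (A : Set ℂ) := by
    intro d h1 h2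
    refine subset_hull (Finset.mem_coe.2 (Finset.mem_image.2 ⟨d - 1, ?_, ?_⟩))
      (Nat.cast_ne_zero.2 (by omega))
    · rw [Finset.mem_range]
      omega
    · congr 1
      omega
  choose Y hY1 hY2 using fun k' : ℕ => sums t w D A hA k'
  -- the possible values
  have hfin : (⋃ k' ∈ Finset.range (k + 1), ⋃ y ∈ (hY1 k').toFinset, ⋃ i ∈ (Finset.univ :
      Finset (Fin k')), ⋃ d ∈ Finset.range b, {m : ℕ | y i ≠ 0 ∧ (d : ℂ) = (m : ℂ) * y i}).Finite := by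
    refine (Finset.finite_toSet _).biUnion fun k' _ => (Finset.finite_toSet _).biUnion fun y _ =>
      (Finset.finite_toSet _).biUnion fun i _ => (Finset.finite_toSet _).biUnion fun d _ => ?_
    refine Set.Subsingleton.finite ?_
    rintro m ⟨h1, h2⟩ m' ⟨-, h3⟩
    rw [h2] at h3
    exact Nat.cast_injective (mul_right_cancel₀ h1 h3)
  refine hfin.subset ?_
  rintro m ⟨⟨S, d, hcard, hd, hm⟩, hbm, j, hj⟩
  -- the digit at the place `0`
  have h0 : 0 ∈ S := by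
    by_contra h0
    apply hbm
    rw [hm]
    refine Finset.dvd_sum fun i hi => ?_
    have hi0 : i ≠ 0 := by
      rintro rfl
      exact h0 hi
    exact (dvd_pow_self b hi0).mul_left _
  have hbC : (b : ℂ) ≠ 0 := Nat.cast_ne_zero.2 (by omega)
  let e : S ≃ Fin S.card := S.equivFin
  let x : Fin S.card → ℂ := fun i => ((d (e.symm i) * b ^ ((e.symm i : ℕ)) : ℕ) : ℂ)
  have hxpos : ∀ i, 0 < d (e.symm i) * b ^ ((e.symm i : ℕ)) := fun i =>
    Nat.mul_pos (hd _ (e.symm i).2).1 (pow_pos (by omega) _)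
  have hsub : ∀ I : Finset (Fin S.card), I.Nonempty → ∑ i ∈ I, x i ≠ 0 := by
    intro I hI
    show ∑ i ∈ I, ((d (e.symm i) * b ^ ((e.symm i : ℕ)) : ℕ) : ℂ) ≠ 0
    rw [← Nat.cast_sum]
    refine Nat.cast_ne_zero.2 (Finset.sum_pos (fun i _ => hxpos i) hI).ne'
  have hsum : ∑ i, x i = (m : ℂ) := by
    show ∑ i, ((d (e.symm i) * b ^ ((e.symm i : ℕ)) : ℕ) : ℂ) = (m : ℂ)
    rw [← Nat.cast_sum, hm]
    congr 1
    rw [← Finset.sum_coe_sort S (fun i => d i * b ^ i)]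
    exact Equiv.sum_comp e.symm (fun i : S => d i * b ^ (i : ℕ))
  have hxA : ∀ i, x i ∈ Hull (A : Set ℂ) := by
    intro i
    show ((d (e.symm i) * b ^ ((e.symm i : ℕ)) : ℕ) : ℂ) ∈ _
    rw [Nat.cast_mul, Nat.cast_pow]
    exact hull_mul (hAd _ (hd _ (e.symm i).2).1 (hd _ (e.symm i).2).2.le)
      (hull_pow (hAd b (by omega) le_rfl) _)
  have hmem : ∑ i, x i ∈ Hull (A ∪ Exc t w D) := by
    rw [hsum]
    have hm0 : m ≠ 0 := by
      rintro rfl
      exact hbm (dvd_zero b)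
    have h1 : (((m * b ^ j : ℕ)) : ℂ) ∈ Hull (A ∪ Exc t w D) := by
      refine subset_hull (Or.inr hj) (Nat.cast_ne_zero.2 ?_)
      exact mul_ne_zero hm0 (pow_ne_zero _ (by omega))
    have h2 := hull_mul h1 (hull_inv (hull_pow (hull_mono
      (Set.subset_union_left (s := (A : Set ℂ)) (t := Exc t w D)) (hAd b (by omega) le_rfl)) j))
    have h3 : (((m * b ^ j : ℕ)) : ℂ) * (((b : ℕ) : ℂ) ^ j)⁻¹ = (m : ℂ) := by
      rw [Nat.cast_mul, Nat.cast_pow, mul_assoc, mul_inv_cancel₀ (pow_ne_zero _ hbC), mul_one]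
    rw [h3] at h2
    exact h2
  obtain ⟨y, hy, hxy⟩ := hY2 S.card x hxA hsub hmem
  have hi := hxy (e ⟨0, h0⟩)
  have hx0 : x (e ⟨0, h0⟩) = (d 0 : ℂ) := by
    show ((d (e.symm (e ⟨0, h0⟩)) * b ^ ((e.symm (e ⟨0, h0⟩) : ℕ)) : ℕ) : ℂ) = _
    rw [Equiv.symm_apply_apply]
    simp
  rw [hx0, hsum] at hi
  have hd0 : (d 0 : ℂ) ≠ 0 := Nat.cast_ne_zero.2 (by have := (hd 0 h0).1; omega)
  have hy0 : y (e ⟨0, h0⟩) ≠ 0 := by
    intro h
    rw [h, mul_zero] at hi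
    exact hd0 hi
  simp only [Set.mem_iUnion]
  exact ⟨S.card, Finset.mem_range.2 (by omega), y, (hY1 _).mem_toFinset.2 hy, e ⟨0, h0⟩,
    Finset.mem_univ _, d 0, Finset.mem_range.2 (hd 0 h0).2, hy0, hi⟩

/-- the exceptional numbers of the three kinds which are needed for the question -/
theorem mem_exc {a : ℝ} (ha : 0 < a) (halg : IsAlgebraic ℚ a) {x y v : ℝ}
    (hx : Transcendental ℚ x)
    (hP : ∃ P : MvPolynomial (Fin 2) (algebraicClosure ℚ ℂ), (∀ i, P.degreeOf i ≤ 1) ∧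
      (x : ℂ) = MvPolynomial.aeval pie P)
    (hT : ∃ P : MvPolynomial (Fin 2) (algebraicClosure ℚ ℂ), (∀ i, P.degreeOf i ≤ 1) ∧
      (v : ℂ) = MvPolynomial.aeval pie P)
    (hS : ∃ P : MvPolynomial (Fin 2) (algebraicClosure ℚ ℂ), (∀ i, P.degreeOf i ≤ 1) ∧
      (y : ℂ) = MvPolynomial.aeval pie P)
    (h : IsAlgebraic ℚ (Real.exp (x * Real.log a + v + y * Real.log Real.pi))) :
    (a : ℂ) ∈ Exc pie logpi 1 := by
  obtain ⟨P, hP1, hP2⟩ := hP
  obtain ⟨T, hT1, hT2⟩ := hT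
  obtain ⟨S, hS1, hS2⟩ := hS
  refine ⟨halg.algebraMap, ((Real.log a : ℝ) : ℂ), ?_, ((x : ℂ), (v : ℂ), fun _ => (y : ℂ)),
    ⟨Pool.Agent.HP778.ofReal_transcendental hx, P, 1, T, fun _ => S, hP1, ?_, hT1,
      fun _ i => hS1 i, ?_, ?_, ?_, ?_⟩, ?_⟩
  · rw [← Complex.ofReal_exp, Real.exp_log ha]
  · intro i
    simp
  · simp
  · simpa using hP2
  · simpa using hT2
  · intro j
    simpa using hS2
  · refine alg_prods ?_ ?_
    · have h1 : IsAlgebraic ℚ ((Real.exp (x * Real.log a + v + y * Real.log Real.pi) : ℝ) : ℂ) :=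
        h.algebraMap
      have h2 : ((Real.exp (x * Real.log a + v + y * Real.log Real.pi) : ℝ) : ℂ) =
          Complex.exp ((x : ℂ) * ((Real.log a : ℝ) : ℂ)) * Complex.exp (v : ℂ) *
            ∏ j, Complex.exp ((y : ℂ) * logpi j) := by
        rw [Complex.ofReal_exp]
        push_cast
        rw [Complex.exp_add, Complex.exp_add]
        simp [logpi]
      rw [h2] at h1
      exact h1
    · exact mul_ne_zero (mul_ne_zero (Complex.exp_ne_zero _) (Complex.exp_ne_zero _))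
        (Finset.prod_ne_zero_iff.2 fun _ _ => Complex.exp_ne_zero _)

theorem lin (c : ℤ) (j : Fin 2) (x : ℝ) (hx : pie j = (x : ℂ)) :
    ∃ P : MvPolynomial (Fin 2) (algebraicClosure ℚ ℂ),
      (∀ i, P.degreeOf i ≤ 1) ∧ ((((c : ℝ) * x : ℝ)) : ℂ) = MvPolynomial.aeval pie P := by
  classical
  refine ⟨MvPolynomial.C (c : algebraicClosure ℚ ℂ) * MvPolynomial.X j, fun i => ?_, ?_⟩
  · refine (MvPolynomial.degreeOf_C_mul_le _ _ _).trans ?_
    rw [MvPolynomial.degreeOf_X]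
    split_ifs <;> simp
  · rw [map_mul, MvPolynomial.aeval_C, MvPolynomial.aeval_X, hx, map_intCast]
    push_cast
    rfl

theorem lin_zero : ∃ P : MvPolynomial (Fin 2) (algebraicClosure ℚ ℂ),
    (∀ i, P.degreeOf i ≤ 1) ∧ (((0 : ℝ)) : ℂ) = MvPolynomial.aeval pie P :=
  ⟨0, fun i => by simp, by simp⟩

theorem tr_mul {c : ℤ} (hc : c ≠ 0) {x : ℝ} (hx : Transcendental ℚ x) :
    Transcendental ℚ ((c : ℝ) * x) := by
  intro h
  apply hx
  have h1 : (c : ℝ) ≠ 0 := by exact_mod_cast hc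
  have h2 : x = ((c : ℝ))⁻¹ * ((c : ℝ) * x) := by
    rw [← mul_assoc, inv_mul_cancel₀ h1, one_mul]
  rw [h2]
  exact ((isAlgebraic_intCast c).inv).mul h

open Pool.Agent.H340R2.LW (transcendental_pi transcendental_exp_one) in
/-- the five numbers for integral multiples of `π` and `e` -/
theorem five (a b : ℤ) (ha : 0 < a) (hb : 0 < b) (ha' : ((a : ℤ) : ℂ) ∉ Exc pie logpi 1)
    (hb' : ((b : ℤ) : ℂ) ∉ Exc pie logpi 1) :
    FourOfFive ((a : ℝ) * Real.pi) ((b : ℝ) * Real.exp 1) := by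
  have haR : (0 : ℝ) < a := by exact_mod_cast ha
  have hbR : (0 : ℝ) < b := by exact_mod_cast hb
  have hpi := Real.pi_pos
  have he := Real.exp_pos 1
  have e0 : pie 0 = ((Real.pi : ℝ) : ℂ) := rfl
  have e1 : pie 1 = ((Real.exp 1 : ℝ) : ℂ) := rfl
  refine ⟨fun h => ha' ?_, fun h => hb' ?_, fun h => ha' ?_, ?_⟩
  · have h1 := mem_exc haR (isAlgebraic_intCast a) (tr_mul hb.ne' transcendental_exp_one)
      (lin b 1 _ e1) lin_zero (lin b 1 _ e1) (by
        rw [Real.rpow_def_of_pos (mul_pos haR hpi), Real.log_mul haR.ne' hpi.ne'] at h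
        have h2 : (b : ℝ) * Real.exp 1 * Real.log a + 0 + (b : ℝ) * Real.exp 1 * Real.log Real.pi =
          (Real.log a + Real.log Real.pi) * ((b : ℝ) * Real.exp 1) := by ring
        rw [h2]
        exact not_not.1 (fun h3 => h3 h))
    exact_mod_cast h1
  · have h1 := mem_exc hbR (isAlgebraic_intCast b) (tr_mul hb.ne' transcendental_exp_one)
      (lin b 1 _ e1) (lin b 1 _ e1) lin_zero (by
        rw [Real.rpow_def_of_pos (mul_pos hbR he), Real.log_mul hbR.ne' he.ne', Real.log_exp] at h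
        have h2 : (b : ℝ) * Real.exp 1 * Real.log b + (b : ℝ) * Real.exp 1 +
          0 * Real.log Real.pi = (Real.log b + 1) * ((b : ℝ) * Real.exp 1) := by ring
        rw [h2]
        exact h)
    exact_mod_cast h1
  · have h1 := mem_exc haR (isAlgebraic_intCast a) (tr_mul ha.ne' transcendental_pi)
      (lin a 0 _ e0) lin_zero (lin a 0 _ e0) (by
        rw [Real.rpow_def_of_pos (mul_pos haR hpi), Real.log_mul haR.ne' hpi.ne'] at h
        have h2 : (a : ℝ) * Real.pi * Real.log a + 0 + (a : ℝ) * Real.pi * Real.log Real.pi =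
          (Real.log a + Real.log Real.pi) * ((a : ℝ) * Real.pi) := by ring
        rw [h2]
        exact h)
    exact_mod_cast h1
  · by_contra hcon
    rw [not_or] at hcon
    have h1 : IsAlgebraic ℚ ((a : ℝ) * Real.pi + (b : ℝ) * Real.exp 1) := not_not.1 hcon.1
    have h2 : IsAlgebraic ℚ ((a : ℝ) * Real.pi * ((b : ℝ) * Real.exp 1)) := not_not.1 hcon.2
    apply tr_mul ha.ne' transcendental_pi
    obtain ⟨u, hu⟩ : ∃ u, u = (a : ℝ) * Real.pi := ⟨_, rfl⟩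
    obtain ⟨w, hw⟩ : ∃ w, w = (b : ℝ) * Real.exp 1 := ⟨_, rfl⟩
    rw [← hu, ← hw] at h1 h2
    rw [← hu]
    -- `(u - w) ^ 2 = (u + w) ^ 2 - 4 u w`
    have h3 : IsAlgebraic ℚ ((u - w) ^ 2) := by
      have e : (u - w) ^ 2 = (u + w) ^ 2 - ((4 : ℕ) : ℝ) * (u * w) := by push_cast; ring
      rw [e]
      exact (h1.pow 2).sub ((isAlgebraic_natCast 4).mul h2)
    have h4 : IsAlgebraic ℚ (u - w) := IsAlgebraic.of_pow two_pos h3
    have h5 : u = ((2 : ℕ) : ℝ)⁻¹ * ((u + w) + (u - w)) := by push_cast; ring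
    rw [h5]
    exact ((isAlgebraic_natCast 2).inv).mul (h1.add h4)


theorem four {m n : ℕ} (hm : 0 < m) (hn : 0 < n) (hm' : ((m : ℕ) : ℂ) ∉ Exc pie logpi 1)
    (hn' : ((n : ℕ) : ℂ) ∉ Exc pie logpi 1) :
    FourOfFive ((m : ℝ) * Real.pi) ((n : ℝ) * Real.exp 1) := by
  have h1 := five (m : ℤ) (n : ℤ) (by exact_mod_cast hm) (by exact_mod_cast hn)
    (by exact_mod_cast hm') (by exact_mod_cast hn')
  simpa using h1

/-- Fibonacci numbers -/
theorem fib_finite {r s : ℕ} (t : Fin r → ℂ) (w : Fin s → ℂ) (D : ℕ) :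
    {n : ℕ | 0 < n ∧ ((Nat.fib n : ℕ) : ℂ) ∈ Exc t w D}.Finite := by
  have h5 : (0 : ℝ) < √5 := by positivity
  have a5 : IsAlgebraic ℚ (√5 : ℝ) := by
    refine IsAlgebraic.of_pow (n := 2) two_pos ?_
    rw [Real.sq_sqrt (by norm_num)]
    exact isAlgebraic_natCast 5
  have a2 : IsAlgebraic ℚ ((2 : ℝ)⁻¹) := (isAlgebraic_natCast 2).inv
  have hφ : Real.goldenRatio = (1 + √5) * (2 : ℝ)⁻¹ := by
    rw [Real.goldenRatio, div_eq_mul_inv]
  have hψ : Real.goldenConj = (1 - √5) * (2 : ℝ)⁻¹ := by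
    rw [Real.goldenConj, div_eq_mul_inv]
  have aφ : IsAlgebraic ℚ Real.goldenRatio := by
    rw [hφ]
    exact (isAlgebraic_one.add a5).mul a2
  have aψ : IsAlgebraic ℚ Real.goldenConj := by
    rw [hψ]
    exact (isAlgebraic_one.sub a5).mul a2
  have hψ0 : Real.goldenConj ≠ 0 := Real.goldenConj_ne_zero
  have hφ0 : Real.goldenRatio ≠ 0 := Real.goldenRatio_ne_zero
  have hq : ∀ n : ℕ, 0 < n → (Real.goldenRatio / Real.goldenConj) ^ n ≠ 1 := by
    intro n hn h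
    have h1 : |Real.goldenRatio / Real.goldenConj| ^ n = 1 := by
      rw [← abs_pow, h, abs_one]
    have h2 : 1 < |Real.goldenRatio / Real.goldenConj| := by
      rw [abs_div, lt_div_iff₀ (abs_pos.2 hψ0), one_mul]
      have h3 := Real.neg_one_lt_goldenConj
      have h4 := Real.goldenConj_neg
      have h5 := Real.one_lt_goldenRatio
      rw [abs_of_neg h4, abs_of_pos (by linarith)]
      linarith
    exact (one_lt_pow₀ h2 hn.ne').ne' h1
  have hq' : ∀ n : ℕ, 0 < n → (Real.goldenConj / Real.goldenRatio) ^ n ≠ 1 := by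
    intro n hn h
    apply hq n hn
    have h1 : Real.goldenRatio / Real.goldenConj = (Real.goldenConj / Real.goldenRatio)⁻¹ := by
      rw [inv_div]
    rw [h1, inv_pow, h, inv_one]
  have hfin := powerSums t w D ∅ (by simp) 2 le_rfl
    ![((√5 : ℝ) : ℂ)⁻¹, -((√5 : ℝ) : ℂ)⁻¹]
    ![((Real.goldenRatio : ℝ) : ℂ), ((Real.goldenConj : ℝ) : ℂ)] (by
      intro i
      have h6 : ((√5 : ℝ) : ℂ)⁻¹ ≠ 0 := inv_ne_zero (Complex.ofReal_ne_zero.2 h5.ne')
      fin_cases i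
      · exact ⟨a5.algebraMap.inv, h6⟩
      · exact ⟨a5.algebraMap.inv.neg, neg_ne_zero.2 h6⟩) (by
      intro i
      fin_cases i
      · exact ⟨aφ.algebraMap, Complex.ofReal_ne_zero.2 hφ0⟩
      · exact ⟨aψ.algebraMap, Complex.ofReal_ne_zero.2 hψ0⟩) (by
      intro i j hij n hn h
      fin_cases i <;> fin_cases j
      · exact hij rfl
      · apply hq n hn
        have h7 : ((((Real.goldenRatio / Real.goldenConj) ^ n : ℝ)) : ℂ) = ((1 : ℝ) : ℂ) := by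
          rw [Complex.ofReal_pow, Complex.ofReal_div, Complex.ofReal_one]
          exact h
        exact Complex.ofReal_injective h7
      · apply hq' n hn
        have h7 : ((((Real.goldenConj / Real.goldenRatio) ^ n : ℝ)) : ℂ) = ((1 : ℝ) : ℂ) := by
          rw [Complex.ofReal_pow, Complex.ofReal_div, Complex.ofReal_one]
          exact h
        exact Complex.ofReal_injective h7
      · exact hij rfl)
  refine hfin.subset ?_
  rintro n ⟨hn, hmem⟩
  have h8 : ∑ i, ![((√5 : ℝ) : ℂ)⁻¹, -((√5 : ℝ) : ℂ)⁻¹] i *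
      ![((Real.goldenRatio : ℝ) : ℂ), ((Real.goldenConj : ℝ) : ℂ)] i ^ n =
      ((Nat.fib n : ℕ) : ℂ) := by
    rw [Fin.sum_univ_two]
    show ((√5 : ℝ) : ℂ)⁻¹ * ((Real.goldenRatio : ℝ) : ℂ) ^ n +
      -((√5 : ℝ) : ℂ)⁻¹ * ((Real.goldenConj : ℝ) : ℂ) ^ n = _
    have h9 := Real.coe_fib_eq n
    have h10 : ∀ a b c : ℝ, (Nat.fib n : ℝ) = (a ^ n - b ^ n) / c →
        (c : ℂ)⁻¹ * (a : ℂ) ^ n + -(c : ℂ)⁻¹ * (b : ℂ) ^ n = ((Nat.fib n : ℕ) : ℂ) := by
      intro a b c h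
      rw [← Complex.ofReal_natCast, h, Complex.ofReal_div, Complex.ofReal_sub,
        Complex.ofReal_pow, Complex.ofReal_pow, div_eq_inv_mul]
      ring
    exact h10 _ _ _ h9
  show (∑ i, ![((√5 : ℝ) : ℂ)⁻¹, -((√5 : ℝ) : ℂ)⁻¹] i *
      ![((Real.goldenRatio : ℝ) : ℂ), ((Real.goldenConj : ℝ) : ℂ)] i ^ n) ∈
      Hull (((∅ : Finset ℂ) : Set ℂ) ∪ Exc t w D)
  rw [h8]
  exact subset_hull (Or.inr hmem) (Nat.cast_ne_zero.2 (Nat.fib_pos.2 hn).ne')

/-- **Main result.** -/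
theorem result :
    -- (1) sums of elements of groups of finite rank
    (∀ (r s : ℕ) (t : Fin r → ℂ) (w : Fin s → ℂ) (D : ℕ) (A : Finset ℂ),
      (∀ a ∈ A, IsAlgebraic ℚ a ∧ a ≠ 0) → ∀ k : ℕ,
      ∃ Y : Set (Fin k → ℂ), Y.Finite ∧ ∀ x : Fin k → ℂ, (∀ i, x i ∈ Hull (A : Set ℂ)) →
        (∀ I : Finset (Fin k), I.Nonempty → ∑ i ∈ I, x i ≠ 0) →
        ∑ i, x i ∈ Hull (A ∪ Exc t w D) → ∃ y ∈ Y, ∀ i, x i = (∑ i, x i) * y i) ∧
    -- (2) linear recurrence sequences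
    (∀ (r s : ℕ) (t : Fin r → ℂ) (w : Fin s → ℂ) (D : ℕ) (A : Finset ℂ),
      (∀ a ∈ A, IsAlgebraic ℚ a ∧ a ≠ 0) → ∀ k : ℕ, 2 ≤ k → ∀ c α : Fin k → ℂ,
      (∀ i, IsAlgebraic ℚ (c i) ∧ c i ≠ 0) → (∀ i, IsAlgebraic ℚ (α i) ∧ α i ≠ 0) →
      (∀ i j, i ≠ j → ∀ n : ℕ, 0 < n → (α i / α j) ^ n ≠ 1) →
      {n : ℕ | ∑ i, c i * α i ^ n ∈ Hull (A ∪ Exc t w D)}.Finite) ∧
    -- (3) sparse integers
    (∀ b k : ℕ, 2 ≤ b → ∃ N : ℕ, ∀ m m' : ℕ, N ≤ m → N ≤ m' → Sparse b k m → Sparse b k m' →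
      ¬ b ∣ m → ¬ b ∣ m' → ∀ i j : ℕ,
      FourOfFive (((m * b ^ i : ℕ) : ℝ) * Real.pi) (((m' * b ^ j : ℕ) : ℝ) * Real.exp 1)) ∧
    -- (4) Fibonacci numbers
    (∃ N : ℕ, ∀ m n : ℕ, N ≤ m → N ≤ n →
      FourOfFive ((Nat.fib m : ℝ) * Real.pi) ((Nat.fib n : ℝ) * Real.exp 1)) ∧
    (∀ x : ℂ, x ≠ 0 → IsAlgebraic ℚ x → x ∈ Prods) := by
  refine ⟨fun r s t w D A hA k => sums t w D A hA k,
    fun r s t w D A hA k hk c α hc hα hnd => powerSums t w D A hA k hk c α hc hα hnd,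
    fun b k hb => ?_, ?_, fun x hx0 hx => alg_prods hx hx0⟩
  · obtain ⟨N, hN⟩ := (sparse pie logpi 1 b k hb).bddAbove
    refine ⟨N + 1, fun m m' hm hm' hs hs' hd hd' i j => four ?_ ?_ (fun h => ?_) (fun h => ?_)⟩
    · exact Nat.mul_pos (by omega) (pow_pos (by omega) _)
    · exact Nat.mul_pos (by omega) (pow_pos (by omega) _)
    · have := hN ⟨hs, hd, i, h⟩
      omega
    · have := hN ⟨hs', hd', j, h⟩
      omega
  · obtain ⟨N, hN⟩ := (fib_finite pie logpi 1).bddAbove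
    refine ⟨N + 1, fun m n hm hn => four (Nat.fib_pos.2 (by omega)) (Nat.fib_pos.2 (by omega))
      (fun h => ?_) (fun h => ?_)⟩
    · have := hN ⟨(by omega : 0 < m), h⟩
      omega
    · have := hN ⟨(by omega : 0 < n), h⟩
      omega

end Pool.Agent.Results.MP_a49cf6_nt.MultiplesBySparseIntegers
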